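import Pool.Agent.Helper94.PQ.Defs
import Pool.Agent.Helper13.Swan.Key5

/-!
# Motives of even weight with rational coefficients: statements of the modules
-/

set_option autoImplicit false

open NumberField
open scoped Classical

namespace PQ

open BKA Pool.Agent.Helper13.Swan

/-! ## A. From the number field to the local field -/

/-- the inertia group of `L / F` at the prime under `𝔓` -/
def Inr {F : Type} [Field F] [NumberField F] (L : IntermediateField F (AlgebraicClosure F))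
    (𝔓 : Ideal (Zb F)) : Subgroup (L ≃ₐ[F] L) where
  carrier := {g | ∀ x y : 𝓞 L, (y : L) = g (x : L) → y - x ∈ under L 𝔓}
  one_mem' := by
    intro x y h
    have : y = x := RingOfIntegers.ext h
    rw [this, sub_self]
    exact Ideal.zero_mem _
  mul_mem' := by
    intro g h hg hh x y hxy
    obtain ⟨z, hz⟩ : ∃ z : 𝓞 L, (z : L) = h (x : L) :=
      ⟨⟨h (x : L), x.isIntegral_coe.map (h : L →+* L).toIntAlgHom⟩, rfl⟩
    have h1 := hh x z hz
    have h2 := hg z y (by rw [hxy, hz]; rfl)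
    have h3 : y - x = (y - z) + (z - x) := by ring
    rw [h3]
    exact Ideal.add_mem _ h2 h1
  inv_mem' := by
    intro g hg x y hxy
    have h1 : (x : L) = g (y : L) := by
      rw [hxy]
      exact (AlgEquiv.apply_symm_apply g (x : L)).symm
    have h2 := hg y x h1
    have h3 : y - x = -(x - y) := by ring
    rw [h3]
    exact (Ideal.neg_mem_iff _).2 h2

/-- the action of `σ` on `L` is `g` -/
def On {F : Type} [Field F] (L : IntermediateField F (AlgebraicClosure F)) (σ : Gal F)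
    (g : L ≃ₐ[F] L) : Prop :=
  ∀ x : L, σ (x : AlgebraicClosure F) = ((g x : L) : AlgebraicClosure F)

/-- A discrete valuation on `L` at the prime under `𝔓` and a uniformiser for which the inertia group
satisfies the hypotheses of `Helper13/Swan`. -/
structure LocM {F : Type} [Field F] [NumberField F] (v : Pl F) (𝔓 : Ideal (Zb F))
    (L : IntermediateField F (AlgebraicClosure F)) where
  w : Valuation L (WithZero (Multiplicative ℤ))
  π : L
  base : Base (Inr L 𝔓) w π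
  ram : ∀ (i : ℕ) (g : Inr L 𝔓), (∀ x y : 𝓞 L, (y : L) = (g : L ≃ₐ[F] L) (x : L) →
    y - x ∈ under L 𝔓 ^ (i + 1)) ↔ g ∈ Rk base i
  val : ∀ x : F, w (algebraMap F L x) = (v.valuation F x) ^ (Nat.card (Inr L 𝔓))
  int : ∀ x : 𝓞 L, w (x : L) ≤ 1 ∧ (w (x : L) < 1 ↔ x ∈ under L 𝔓)

/-- FIN: existence of the local model. -/
def ST_FIN : Prop :=
  ∀ (F : Type) [Field F] [NumberField F] (v : Pl F) (𝔓 : Ideal (Zb F)), Over v 𝔓 →
    ∀ (L : IntermediateField F (AlgebraicClosure F)), FiniteDimensional F L → Normal F L →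
      Nonempty (LocM v 𝔓 L)

/-- SUR: lifting of elements of the inertia group. -/
def ST_SUR : Prop :=
  ∀ (F : Type) [Field F] [NumberField F] (v : Pl F) (𝔓 : Ideal (Zb F)), Over v 𝔓 →
    ∀ (L : IntermediateField F (AlgebraicClosure F)), FiniteDimensional F L → Normal F L →
    ∀ g ∈ Inr L 𝔓, ∃ σ : Gal F, Congr 𝔓 1 σ ∧ On L σ g

/-- GRP: elementary facts on the inertia group and the wild inertia group. -/
def ST_GRP : Prop :=
  ∀ (F : Type) [Field F] [NumberField F] (v : Pl F) (𝔓 : Ideal (Zb F)), Over v 𝔓 →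
    (∀ σ τ : Gal F, Congr 𝔓 1 σ → Congr 𝔓 1 τ → Congr 𝔓 1 (σ * τ)) ∧
    (∀ σ : Gal F, Congr 𝔓 1 σ → Congr 𝔓 1 σ⁻¹) ∧
    (∀ σ : Gal F, Wild 𝔓 σ → Congr 𝔓 1 σ) ∧
    (∀ σ τ : Gal F, Wild 𝔓 σ → Wild 𝔓 τ → Wild 𝔓 (σ * τ)) ∧
    (∀ σ : Gal F, Wild 𝔓 σ → Wild 𝔓 σ⁻¹) ∧
    (∀ σ τ : Gal F, Wild 𝔓 σ → Congr 𝔓 1 τ → Wild 𝔓 (τ * σ * τ⁻¹)) ∧
    (∀ (L : IntermediateField F (AlgebraicClosure F)), Normal F L → ∀ σ : Gal F,
      Congr 𝔓 1 σ → ∃ g ∈ Inr L 𝔓, On L σ g) ∧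
    (∀ (L : IntermediateField F (AlgebraicClosure F)) (i : ℕ) (σ : Gal F) (g : L ≃ₐ[F] L),
      On L σ g → (Ram L 𝔓 i σ ↔ ∀ x y : 𝓞 L, (y : L) = g (x : L) → y - x ∈ under L 𝔓 ^ (i + 1)))

/-- WSUR: lifting of elements of the first ramification group to the wild inertia group. -/
def ST_WSUR : Prop :=
  ∀ (F : Type) [Field F] [NumberField F] (v : Pl F) (𝔓 : Ideal (Zb F)), Over v 𝔓 →
    ∀ (L : IntermediateField F (AlgebraicClosure F)), FiniteDimensional F L → Normal F L →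
    ∀ g : L ≃ₐ[F] L, (∀ x y : 𝓞 L, (y : L) = g (x : L) → y - x ∈ under L 𝔓 ^ 2) →
      ∃ σ : Gal F, Wild 𝔓 σ ∧ On L σ g

/-- `τ` generates the tame inertia group at `𝔓` topologically. -/
def TGen {F : Type} [Field F] [NumberField F] (𝔓 : Ideal (Zb F)) (τ : Gal F) : Prop :=
  Congr 𝔓 1 τ ∧ ∀ L : IntermediateField F (AlgebraicClosure F), FiniteDimensional F L →
    Normal F L → ∀ σ : Gal F, Congr 𝔓 1 σ → ∃ j : ℕ, Ram L 𝔓 1 (τ ^ j * σ)

/-- TOP: the tame inertia group is topologically generated by one element, which over `2` can be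
taken to be a square. -/
def ST_TOP : Prop :=
  ∀ (F : Type) [Field F] [NumberField F] (v : Pl F) (𝔓 : Ideal (Zb F)), Over v 𝔓 →
    ∃ τ : Gal F, TGen 𝔓 τ ∧ ((2 : 𝓞 F) ∈ v.asIdeal → TGen 𝔓 (τ * τ))

/-- DENS: a vector fixed by the wild inertia group and by the generator is fixed by the inertia
group. -/
def ST_DENS : Prop :=
  ∀ (F : Type) [Field F] [NumberField F] (v : Pl F) (𝔓 : Ideal (Zb F)), Over v 𝔓 →
    ∀ τ : Gal F, TGen 𝔓 τ → ∀ (ℓ : ℕ) [Fact ℓ.Prime] (n : ℕ)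
      (ρ : Gal F →* Matrix.GeneralLinearGroup (Fin n) ℚ_[ℓ]), Continuous ρ →
    ∀ x : Fin n → ℚ_[ℓ], (∀ σ : Gal F, Wild 𝔓 σ → vec ρ σ x = x) → vec ρ τ x = x →
      ∀ σ : Gal F, Congr 𝔓 1 σ → vec ρ σ x = x

/-- REP: the representation of the first ramification group of `L / F`. -/
def ST_REP : Prop :=
  ∀ (F : Type) [Field F] [NumberField F] (v : Pl F) (𝔓 : Ideal (Zb F)), Over v 𝔓 →
    ∀ (L : IntermediateField F (AlgebraicClosure F)), FiniteDimensional F L → Normal F L →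
    ∀ (M : LocM v 𝔓 L) (k : Type) [Field k] (n : ℕ)
      (ρ : Gal F →* Matrix.GeneralLinearGroup (Fin n) k),
    (∀ σ : Gal F, Wild 𝔓 σ → (∀ x ∈ L, σ x = x) → ρ σ = 1) →
    (∀ i : ℕ, ramCard L 𝔓 i = Nat.card (Rk M.base i)) ∧
    ∃ r : Rk M.base 1 →* Matrix.GeneralLinearGroup (Fin n) k,
      (∀ (σ : Gal F) (g : Rk M.base 1), Wild 𝔓 σ → On L σ ((g : Inr L 𝔓) : L ≃ₐ[F] L) →
        r g = ρ σ) ∧
      (∀ g : Rk M.base 1, ∃ σ : Gal F, Wild 𝔓 σ ∧ On L σ ((g : Inr L 𝔓) : L ≃ₐ[F] L)) ∧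
      (∀ σ : Gal F, Wild 𝔓 σ → ∃ g : Rk M.base 1, On L σ ((g : Inr L 𝔓) : L ≃ₐ[F] L)) ∧
      ∀ (i : ℕ) (x : Fin n → k), x ∈ fixd ρ {σ | Wild 𝔓 σ ∧ Ram L 𝔓 (i + 1) σ} ↔
        ∀ g : Rk M.base 1, (g : Inr L 𝔓) ∈ Rk M.base (i + 1) → vec r g x = x

/-- VRES: the local models of `L ≤ L'`. -/
def ST_VRES : Prop :=
  ∀ (F : Type) [Field F] [NumberField F] (v : Pl F) (𝔓 : Ideal (Zb F)), Over v 𝔓 →
    ∀ (L L' : IntermediateField F (AlgebraicClosure F)) (h : L ≤ L'), FiniteDimensional F L' →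
    ∀ (M : LocM v 𝔓 L) (M' : LocM v 𝔓 L'), ∃ f : ℕ, 0 < f ∧
      (∀ x : L, M'.w (IntermediateField.inclusion h x) = M.w x ^ f) ∧
      Nat.card (Inr L' 𝔓) = f * Nat.card (Inr L 𝔓)

/-! ## B. Ramification groups -/

/-- the filtration of a finite group by ramification groups -/
structure Filt (G : Type) [Group G] (p e : ℕ) (t : G) (R : ℕ → Subgroup G) : Prop where
  top : R 0 = ⊤
  anti : Antitone R
  normal : ∀ i, (R i).Normal
  bot : ∃ L, R L = ⊥
  e_pos : 0 < e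
  e_cop : ¬ p ∣ e
  pgrp : IsPGroup p (R 1)
  card : Nat.card G = e * Nat.card (R 1)
  ord : ∀ j : ℕ, t ^ j ∈ R 1 ↔ e ∣ j
  gen : ∀ g : G, ∃ j : ℕ, t ^ j * g ∈ R 1
  comm : ∀ i, 1 ≤ i → ∀ g ∈ R i, ∀ h ∈ R 1, h * g * h⁻¹ * g⁻¹ ∈ R (i + 1)
  pow : ∀ i, 1 ≤ i → ∀ g ∈ R i, g ^ p ∈ R (i + 1)
  fix : ∀ i, 1 ≤ i → ∀ g ∈ R i, g ∉ R (i + 1) → ∀ j : ℕ,
    (t ^ j * g * (t ^ j)⁻¹ * g⁻¹ ∈ R (i + 1) ↔ e ∣ i * j)
  neg : ∀ i, 1 ≤ i → ∀ g ∈ R i, ∀ j : ℕ, e ∣ 2 * (i * j) → ¬ e ∣ i * j →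
    t ^ j * g * (t ^ j)⁻¹ * g ∈ R (i + 1)

/-- TAME: the first ramification group is the Sylow `p`-subgroup, with cyclic quotient. -/
def ST_TAME : Prop :=
  ∀ (Ω P : Type) [Field Ω] [Group P] [MulSemiringAction P Ω] [Fintype P] [FaithfulSMul P Ω]
    (w : Valuation Ω (WithZero (Multiplicative ℤ))) (π : Ω) (hB : Base P w π) (p : ℕ),
    p.Prime → w (p : Ω) < 1 →
    IsPGroup p (Rk hB 1) ∧ ¬ p ∣ (Rk hB 1).index ∧ ∃ t : P, ∀ g : P, ∃ j : ℕ,
      t ^ j * g ∈ Rk hB 1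

/-- FILT: properties of the ramification groups. -/
def ST_FILT : Prop :=
  ∀ (Ω P : Type) [Field Ω] [Group P] [MulSemiringAction P Ω] [Fintype P] [FaithfulSMul P Ω]
    (w : Valuation Ω (WithZero (Multiplicative ℤ))) (π : Ω) (hB : Base P w π) (p : ℕ),
    p.Prime → w (p : Ω) < 1 → ∀ t : P, (∀ g : P, ∃ j : ℕ, t ^ j * g ∈ Rk hB 1) →
    ∃ e : ℕ, Filt P p e t (Rk hB)

/-- DISC1: the displacement of the norm of the uniformiser. -/
def ST_DISC1 : Prop :=
  ∀ (Ω P : Type) [Field Ω] [Group P] [MulSemiringAction P Ω] [Fintype P] [FaithfulSMul P Ω]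
    (w : Valuation Ω (WithZero (Multiplicative ℤ))) (π : Ω) (_ : Base P w π) (H : Subgroup P)
    (g : P), w (g • nm H π - nm H π) = ∏ h : H, w ((g * h) • π - π)

/-- the number of fixed points of `g` on the cosets of `H` -/
noncomputable def fxn {S : Type} [Group S] (H : Subgroup S) (g : S) : ℕ :=
  Nat.card {x : S ⧸ H // g • x = x}

/-- the sign of the permutation of the cosets of `H` -/
noncomputable def sgn {S : Type} [Group S] [Finite S] (H : Subgroup S) (g : S) : ℤˣ :=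
  letI := Fintype.ofFinite (S ⧸ H)
  Equiv.Perm.sign (MulAction.toPerm g : Equiv.Perm (S ⧸ H))

/-- DISC2: the discriminant of the fixed field of `H`. -/
def ST_DISC2 : Prop :=
  ∀ (Ω P : Type) [Field Ω] [Group P] [MulSemiringAction P Ω] [Fintype P] [FaithfulSMul P Ω]
    (w : Valuation Ω (WithZero (Multiplicative ℤ))) (π : Ω) (hB : Base P w π) (H : Subgroup P),
    ∃ D : Ω, D ≠ 0 ∧ (∀ s : P, s • D = ((sgn H s : ℤ) : Ω) * D) ∧
      w D ^ 2 = ex (∑ᶠ i : ℕ, ∑ g : Rk hB i, ((H.index : ℤ) - (fxn H (g : P) : ℤ)))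

/-! ## C. Orthogonal representations -/

/-- the vectors fixed by the elements of `R` that are in `S` -/
def fixS {G k V : Type} [Group G] [Field k] [AddCommGroup V] [Module k V] {R : Subgroup G}
    (r : R →* (V →ₗ[k] V)) (S : Subgroup G) : Submodule k V where
  carrier := {x | ∀ g : R, (g : G) ∈ S → r g x = x}
  zero_mem' := fun _ _ => map_zero _
  add_mem' := by
    intro x y hx hy g hg
    rw [map_add, hx g hg, hy g hg]
  smul_mem' := by
    intro a x hx g hg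
    rw [map_smul, hx g hg]

/-- a nondegenerate symmetric bilinear form -/
structure Symm {k V : Type} [Field k] [AddCommGroup V] [Module k V]
    (B : V →ₗ[k] V →ₗ[k] k) : Prop where
  symm : ∀ x y, B x y = B y x
  nondeg : ∀ y, (∀ x, B x y = 0) → y = 0

/-- ODD: parity of the conductor of an orthogonal representation at an odd place. -/
def ST_ODD : Prop :=
  ∀ (G : Type) [Group G] [Finite G] (p e : ℕ) (t : G) (R : ℕ → Subgroup G), p.Prime → p ≠ 2 →
    Filt G p e t R →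
  ∀ (k V : Type) [Field k] [CharZero k] [AddCommGroup V] [Module k V] [FiniteDimensional k V]
    (ζ : k), IsPrimitiveRoot ζ p →
  ∀ (B : V →ₗ[k] V →ₗ[k] k), Symm B →
  ∀ (r : R 1 →* (V →ₗ[k] V)) (T : V →ₗ[k] V),
    (∀ g x y, B (r g x) (r g y) = B x y) → (∀ x y, B (T x) (T y) = B x y) →
    (∀ (g g' : R 1), (g' : G) = t * g * t⁻¹ → ∀ x, T (r g x) = r g' (T x)) →
  ∀ a : ℕ, Nat.card G * a =
      Nat.card G * (Module.finrank k V -
        Module.finrank k (fixS r ⊤ ⊓ LinearMap.ker (T - 1) : Submodule k V)) +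
      ∑ᶠ i : ℕ, Nat.card (R (i + 1)) *
        (Module.finrank k V - Module.finrank k (fixS r (R (i + 1)))) →
    Even (a + Module.finrank k (LinearMap.range (T - 1)))

/-- ODDU: one layer. -/
def ST_ODDU : Prop :=
  ∀ (E : Type) [Group E] [Finite E] (p N : ℕ), p.Prime → p ≠ 2 → 0 < N →
  ∀ (k U : Type) [Field k] [CharZero k] [AddCommGroup U] [Module k U] [FiniteDimensional k U]
    (ζ : k), IsPrimitiveRoot ζ p →
  ∀ (B : U →ₗ[k] U →ₗ[k] k), Symm B →
  ∀ (r : E →* (U →ₗ[k] U)) (T : U →ₗ[k] U) (θ : ℕ → E → E),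
    (∀ g x y, B (r g x) (r g y) = B x y) → (∀ x y, B (T x) (T y) = B x y) →
    (∀ m g x, (T ^ m) (r g x) = r (θ m g) ((T ^ m) x)) →
    (∀ g h, r (g * h) = r (h * g)) → (∀ g, r (g ^ p) = 1) →
    (∀ x, (∀ g, r g x = x) → x = 0) →
    (∀ m, N ∣ m → ∀ g, r (θ m g) = r g) →
    (∀ m, ¬ N ∣ m → ∀ g, ∃ h, r g = r (θ m h * h⁻¹)) →
    (∀ m, N = 2 * m → ∀ g, r (θ m g * g) = 1) →
    ∃ d : ℕ, Module.finrank k U = N * d ∧
      (Even N → Even (d + Module.finrank k (LinearMap.ker (T - 1)))) ∧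
      (¬ Even N → Even d ∧ Even (Module.finrank k (LinearMap.ker (T - 1))))

/-- CARD: congruences for the orders of the ramification groups. -/
def ST_CARD : Prop :=
  ∀ (G : Type) [Group G] [Finite G] (p e : ℕ) (t : G) (R : ℕ → Subgroup G), p.Prime →
    Filt G p e t R → ∀ i, 1 ≤ i →
      (e : ℤ) ∣ i * ((Nat.card (R i) : ℤ) - Nat.card (R (i + 1)))

/-- ODDA: the arithmetic part; `c i` is the order of the `i`-th ramification group, `d j` the
dimension of the layer `j` divided by `e / gcd (e, j)`, `κ j` the dimension of the fixed vectors. -/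
def ST_ODDA : Prop :=
  ∀ (e L : ℕ) (c : ℕ → ℕ) (d κ : ℕ → ℕ), 0 < e →
    (∀ i, Odd (c i)) → (∀ i, 1 ≤ i → (e : ℤ) ∣ i * ((c i : ℤ) - c (i + 1))) →
    (∀ j, 1 ≤ j → (Even (e / e.gcd j) → Even (d j + κ j)) ∧
      (¬ Even (e / e.gcd j) → Even (d j) ∧ Even (κ j))) →
    ∀ b : ℤ, (e : ℤ) * c 1 * b = ∑ j ∈ Finset.Icc 1 L,
      ((e / e.gcd j * d j : ℕ) * (∑ i ∈ Finset.Icc 1 j, (c i : ℤ)) + e * c 1 * κ j) → Even b

/-- the function `f` is an integral combination of permutation characters -/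
def PermCh {S k : Type} [Group S] [Field k] (f : S → k) : Prop :=
  ∃ c : Subgroup S → ℤ, ∀ g, f g = ∑ᶠ H : Subgroup S, (c H : k) * (fxn H g : k)

/-- PC: operations on permutation characters. -/
def ST_PC : Prop :=
  ∀ (S k : Type) [Group S] [Finite S] [Field k] [CharZero k],
    (∀ H : Subgroup S, PermCh (fun g : S => (fxn H g : k))) ∧
    (∀ f f' : S → k, PermCh f → PermCh f' → PermCh (fun g => f g + f' g)) ∧
    (∀ (f : S → k) (a : ℤ), PermCh f → PermCh (fun g => (a : k) * f g)) ∧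
    (∀ (N : Subgroup S) [N.Normal] (f : S ⧸ N → k), PermCh f → PermCh (fun g : S => f g)) ∧
    (∀ (C : Subgroup S) (s : S) (f : C → k), s ∉ C → (∀ g : S, g ∈ C ∨ s⁻¹ * g ∈ C) →
      PermCh f → ∀ F : S → k, (∀ g ∉ C, F g = 0) →
      (∀ g g' : C, (g' : S) = s⁻¹ * g * s → F g = f g + f g') → PermCh F)

/-- `S` has a normal Klein four-group `{1, z, a, a z}` with `z` central -/
def Four (S : Type) [Group S] : Prop :=
  ∃ z a : S, z ≠ 1 ∧ a ≠ 1 ∧ a ≠ z ∧ z * z = 1 ∧ a * a = 1 ∧ (∀ g, g * z = z * g) ∧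
    ∀ g, g * a * g⁻¹ = a ∨ g * a * g⁻¹ = a * z

/-- `S` is cyclic, dihedral, semidihedral or (generalised) quaternion; `z` is the central
involution. -/
def Thin (S : Type) [Group S] (z : S) : Prop :=
  ∃ (a : S) (M : ℕ), 0 < M ∧ orderOf a = 2 * M ∧ z = a ^ M ∧ (∀ g, g * z = z * g) ∧
    ((∀ g, g ∈ Subgroup.zpowers a) ∨
      ∃ s : S, Even M ∧ s ∉ Subgroup.zpowers a ∧
        (∀ g, g ∈ Subgroup.zpowers a ∨ s⁻¹ * g ∈ Subgroup.zpowers a) ∧
        ((s * s = 1 ∧ (s * a * s⁻¹ = a⁻¹ ∨ (Even (M / 2) ∧ s * a * s⁻¹ = a⁻¹ * z))) ∨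
          (s * s = z ∧ s * a * s⁻¹ = a⁻¹)))

/-- RS1: `2`-groups without normal Klein four-groups. -/
def ST_RS1 : Prop :=
  ∀ (S : Type) [Group S] [Finite S], IsPGroup 2 S → Nontrivial S → ¬ Four S → ∃ z : S, Thin S z

/-- RS2: representations of thin groups on which `z` acts by `-1`. -/
def ST_RS2 : Prop :=
  ∀ (S : Type) [Group S] [Finite S], IsPGroup 2 S → ∀ z : S, Thin S z →
  ∀ (k V : Type) [Field k] [CharZero k] [IsAlgClosed k] [AddCommGroup V] [Module k V]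
    [FiniteDimensional k V] (B : V →ₗ[k] V →ₗ[k] k), Symm B →
  ∀ r : S →* (V →ₗ[k] V), (∀ g x y, B (r g x) (r g y) = B x y) → r z = -1 →
    (∀ g (u : ℕ), Odd u → LinearMap.trace k V (r (g ^ u)) = LinearMap.trace k V (r g)) →
    PermCh (fun g => LinearMap.trace k V (r g))

/-- RS: the rational orthogonal representations of `2`-groups, over an algebraically closed
field. -/
def ST_RS : Prop :=
  ∀ (S : Type) [Group S] [Finite S], IsPGroup 2 S →
  ∀ (k V : Type) [Field k] [CharZero k] [IsAlgClosed k] [AddCommGroup V] [Module k V]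
    [FiniteDimensional k V] (B : V →ₗ[k] V →ₗ[k] k), Symm B →
  ∀ r : S →* (V →ₗ[k] V), (∀ g x y, B (r g x) (r g y) = B x y) →
    (∀ g (u : ℕ), Odd u → LinearMap.trace k V (r (g ^ u)) = LinearMap.trace k V (r g)) →
    PermCh (fun g => LinearMap.trace k V (r g))

/-- RSK: the same over any field of characteristic zero. -/
def ST_RSK : Prop :=
  ∀ (S : Type) [Group S] [Finite S], IsPGroup 2 S →
  ∀ (k V : Type) [Field k] [CharZero k] [AddCommGroup V] [Module k V]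
    [FiniteDimensional k V] (B : V →ₗ[k] V →ₗ[k] k), Symm B →
  ∀ r : S →* (V →ₗ[k] V), (∀ g x y, B (r g x) (r g y) = B x y) →
    (∀ g (u : ℕ), Odd u → LinearMap.trace k V (r (g ^ u)) = LinearMap.trace k V (r g)) →
    PermCh (fun g => LinearMap.trace k V (r g))

/-- DET: the determinant of an orthogonal representation whose character is a combination of
permutation characters. -/
def ST_DET : Prop :=
  ∀ (S : Type) [Group S] [Finite S]
    (k V : Type) [Field k] [CharZero k] [AddCommGroup V] [Module k V]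
    [FiniteDimensional k V] (B : V →ₗ[k] V →ₗ[k] k), Symm B →
  ∀ r : S →* (V →ₗ[k] V), (∀ g x y, B (r g x) (r g y) = B x y) →
  ∀ c : Subgroup S → ℤ, (∀ g, LinearMap.trace k V (r g) =
      ∑ᶠ H : Subgroup S, (c H : k) * (fxn H g : k)) →
    ∀ g, LinearMap.det (r g) = (((∏ᶠ H : Subgroup S, sgn H g ^ c H : ℤˣ) : ℤ) : k)

/-- DYAD: the conductor of a rational orthogonal representation of a `2`-group. -/
def ST_DYAD : Prop :=
  ∀ (Ω P : Type) [Field Ω] [CharZero Ω] [Group P] [MulSemiringAction P Ω] [Fintype P]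
    [FaithfulSMul P Ω] (w : Valuation Ω (WithZero (Multiplicative ℤ))) (π : Ω) (hB : Base P w π),
    IsPGroup 2 P →
  ∀ (k V : Type) [Field k] [CharZero k] [AddCommGroup V] [Module k V]
    [FiniteDimensional k V] (B : V →ₗ[k] V →ₗ[k] k), Symm B →
  ∀ r : P →* (V →ₗ[k] V), (∀ g x y, B (r g x) (r g y) = B x y) →
    (∀ g (u : ℕ), Odd u → LinearMap.trace k V (r (g ^ u)) = LinearMap.trace k V (r g)) →
    ∃ D : Ω, D ≠ 0 ∧
      (∀ s : P, (LinearMap.det (r s) = 1 ∧ s • D = D) ∨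
        (LinearMap.det (r s) = -1 ∧ s • D = -D)) ∧
      w D ^ 2 = ex (∑ᶠ i : ℕ, (Nat.card (Rk hB i) : ℤ) * ((Module.finrank k V : ℤ) -
        Module.finrank k ({ carrier := {x | ∀ g ∈ Rk hB i, r g x = x}
                            zero_mem' := fun _ _ => map_zero _
                            add_mem' := fun {x y} hx hy g hg => by
                              rw [map_add, hx g hg, hy g hg]
                            smul_mem' := fun a x hx g hg => by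
                              rw [map_smul, hx g hg] } : Submodule k V)))

/-! ## D. The places -/

/-- the normalised additive valuation at `v` -/
noncomputable def od {F : Type} [Field F] [NumberField F] (v : Pl F) (x : F) : ℤ :=
  -WithZero.log (v.valuation F x)

/-- ZP: roots of unity in `ℚ_ℓ`. -/
def ST_ZP : Prop :=
  ∀ p : ℕ, p.Prime → ∃ (ℓ : ℕ) (_ : Fact ℓ.Prime) (ζ : ℚ_[ℓ]), ℓ ≠ p ∧ IsPrimitiveRoot ζ p

/-- Q3: traces of elements of `2`-power order. -/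
def ST_Q3 : Prop :=
  ∀ (n k : ℕ) (T : Matrix (Fin n) (Fin n) ℚ_[3]), T ^ (2 ^ k) = 1 → (T ^ 3).trace = T.trace

/-- U23: the units modulo `2 ^ k` are generated by `3` and `-1`. -/
def ST_U23 : Prop :=
  ∀ (X : Type) (k : ℕ) (f : ZMod (2 ^ k) → X), (∀ x, f (3 * x) = f x) → (∀ x, f (-x) = f x) →
    ∀ u : ℕ, Odd u → ∀ x, f (u * x) = f x

/-- CYCI: the cyclotomic character is unramified outside `ℓ`. -/
def ST_CYCI : Prop :=
  ∀ (F : Type) [Field F] [NumberField F] (v : Pl F) (𝔓 : Ideal (Zb F)), Over v 𝔓 →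
    ∀ (ℓ : ℕ) [Fact ℓ.Prime], (ℓ : 𝓞 F) ∉ v.asIdeal → ∀ σ : Gal F, Congr 𝔓 1 σ →
      cyc F ℓ σ = 1

/-- INERT: square roots fixed by the inertia group. -/
def ST_INERT : Prop :=
  ∀ (F : Type) [Field F] [NumberField F] (v : Pl F) (𝔓 : Ideal (Zb F)), Over v 𝔓 →
    ∀ (x : F) (y : AlgebraicClosure F), x ≠ 0 → y ^ 2 = algebraMap F (AlgebraicClosure F) x →
    (∀ σ : Gal F, Congr 𝔓 1 σ → σ y = y) → Even (od v x)

/-- KUM: quadratic characters on the tame inertia group, at odd places. -/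
def ST_KUM : Prop :=
  ∀ (F : Type) [Field F] [NumberField F] (v : Pl F) (𝔓 : Ideal (Zb F)), Over v 𝔓 →
    (2 : 𝓞 F) ∉ v.asIdeal → ∀ τ : Gal F, TGen 𝔓 τ →
    ∀ (x : F) (y : AlgebraicClosure F), x ≠ 0 → y ^ 2 = algebraMap F (AlgebraicClosure F) x →
    (τ y = y ↔ Even (od v x))

/-- ODDV: the parity of the exponent of the conductor at the odd places. -/
def ST_ODDV : Prop :=
  ∀ (F : Type) [Field F] [NumberField F] (n : ℕ) (m : ℤ) (R : Realisations F n m) (v : Pl F)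
    (a : ℕ), (2 : 𝓞 F) ∉ v.asIdeal →
    (∀ (ℓ : ℕ) [Fact ℓ.Prime], (ℓ : 𝓞 F) ∉ v.asIdeal → IsCond (R.ρ ℓ) v a) →
    Even ((a : ℤ) + od v R.δ)

/-- DYADV: the parity of the exponent of the conductor at the places over `2`. -/
def ST_DYADV : Prop :=
  ∀ (F : Type) [Field F] [NumberField F] (n : ℕ) (m : ℤ) (R : Realisations F n m) (v : Pl F)
    (a : ℕ), (2 : 𝓞 F) ∈ v.asIdeal →
    (∀ (ℓ : ℕ) [Fact ℓ.Prime], (ℓ : 𝓞 F) ∉ v.asIdeal → IsCond (R.ρ ℓ) v a) →
    Even ((a : ℤ) + od v R.δ)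

/-! ## E. The Hodge–Tate property -/

/-- QSQ: classes of squares of `ℚ_ℓ`. -/
def ST_QSQ : Prop :=
  ∀ (ℓ : ℕ) [Fact ℓ.Prime] (x : ℚ_[ℓ]), x ≠ 0 → ∃ (c : ℚ) (s : ℚ_[ℓ]), c ≠ 0 ∧ s ≠ 0 ∧
    x = c * s ^ 2

/-- HTE: the rank is even. -/
def ST_HTE : Prop :=
  ∀ (F : Type) [Field F] [NumberField F] (n : ℕ) (m : ℤ) (_ : Realisations F n m), Even n

/-- HTV: the determinant at the places over `ℓ`. -/
def ST_HTV : Prop :=
  ∀ (F : Type) [Field F] [NumberField F] (r : ℕ) (m : ℤ) (R : Realisations F (2 * r) m)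
    (ℓ : ℕ) [Fact ℓ.Prime] (c : ℚ) (s : ℚ_[ℓ]), c ≠ 0 → s ≠ 0 →
    (-1) ^ r * (R.B ℓ).det = c * s ^ 2 → ∀ v : Pl F, (ℓ : 𝓞 F) ∈ v.asIdeal →
    Even (od v R.δ + od v (c : F))

/-! ## F. The conductor -/

/-- SQ: the conductor is a square. -/
def ST_SQ : Prop :=
  ∀ (F : Type) [Field F] [NumberField F], Even (Module.finrank ℚ F) → ∀ a : Pl F →₀ ℕ,
    (∀ ℓ : ℕ, ℓ.Prime → ∃ c : ℚ, c ≠ 0 ∧ ∀ v : Pl F, (ℓ : 𝓞 F) ∈ v.asIdeal →
      Even ((a v : ℤ) + od v (c : F))) →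
    IsSquare (a.prod fun v j => q v ^ j)

end PQ
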