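import Pool.Agent.Helper94.PQ.DefsK
import Pool.Agent.Helper94.PQ.Stmts

/-!
# Motives of even weight with coefficients in a field of odd degree: statements of the modules

These statements replace DENS, Q3, ODDV, DYADV, HTE, HTV of `Stmts.lean`; all others are used
unchanged.
-/

set_option autoImplicit false

open NumberField
open scoped Classical

namespace PQ

open BKA

/-- DENSK: a vector fixed by the wild inertia group and by the generator is fixed by the inertia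
group. -/
def ST_DENSK : Prop :=
  ∀ (F : Type) [Field F] [NumberField F] (v : Pl F) (𝔓 : Ideal (Zb F)), Over v 𝔓 →
    ∀ τ : Gal F, TGen 𝔓 τ → ∀ (K : Type) [Field K] [TopologicalSpace K] [IsTopologicalRing K]
      [T2Space K] (n : ℕ) (ρ : Gal F →* Matrix.GeneralLinearGroup (Fin n) K), Continuous ρ →
    ∀ x : Fin n → K, (∀ σ : Gal F, Wild 𝔓 σ → vec ρ σ x = x) → vec ρ τ x = x →
      ∀ σ : Gal F, Congr 𝔓 1 σ → vec ρ σ x = x

/-- Q3K: traces of elements of `2`-power order over an extension of `ℚ_3` of odd degree. -/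
def ST_Q3K : Prop :=
  ∀ (K : Type) [Field K] [Algebra ℚ_[3] K] [FiniteDimensional ℚ_[3] K],
    Odd (Module.finrank ℚ_[3] K) →
    ∀ (n k : ℕ) (T : Matrix (Fin n) (Fin n) K), T ^ (2 ^ k) = 1 → (T ^ 3).trace = T.trace

/-- ODDVK: the parity of the exponent of the conductor at the odd places. -/
def ST_ODDVK : Prop :=
  ∀ (F : Type) [Field F] [NumberField F] (n : ℕ) (m : ℤ) (δ : F), δ ≠ 0 →
    ∀ (v : Pl F) (a : ℕ), (2 : 𝓞 F) ∉ v.asIdeal →
    ∀ p : ℕ, p.Prime → (p : 𝓞 F) ∈ v.asIdeal →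
    ∀ (ℓ : ℕ) [Fact ℓ.Prime] (K : Type) [Field K] [Algebra ℚ_[ℓ] K] [TopologicalSpace K]
      [IsTopologicalRing K] [T2Space K] (ζ : ℚ_[ℓ]), (ℓ : 𝓞 F) ∉ v.asIdeal →
      IsPrimitiveRoot ζ p →
    ∀ R : Realis F n m δ ℓ K, IsCond R.ρ v a → Even ((a : ℤ) + od v δ)

/-- DYADVK: the parity of the exponent of the conductor at the places over `2`. -/
def ST_DYADVK : Prop :=
  ∀ (F : Type) [Field F] [NumberField F] (n : ℕ) (m : ℤ) (δ : F), δ ≠ 0 →
    ∀ (v : Pl F) (a : ℕ), (2 : 𝓞 F) ∈ v.asIdeal →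
    ∀ (K : Type) [Field K] [Algebra ℚ_[3] K] [FiniteDimensional ℚ_[3] K] [TopologicalSpace K]
      [IsTopologicalRing K] [T2Space K], Odd (Module.finrank ℚ_[3] K) →
    ∀ R : Realis F n m δ 3 K, IsCond R.ρ v a → Even ((a : ℤ) + od v δ)

/-- HTEK: the rank is even. -/
def ST_HTEK : Prop :=
  ∀ (F : Type) [Field F] [NumberField F] (n : ℕ) (m : ℤ) (δ : F) (ℓ : ℕ) [Fact ℓ.Prime]
    (K : Type) [Field K] [Algebra ℚ_[ℓ] K] [FiniteDimensional ℚ_[ℓ] K] [TopologicalSpace K]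
    (_ : Realis F n m δ ℓ K), Even n

/-- HTVK: the determinant at the places over `ℓ`. -/
def ST_HTVK : Prop :=
  ∀ (F : Type) [Field F] [NumberField F] (r : ℕ) (m : ℤ) (δ : F), δ ≠ 0 →
    ∀ (ℓ : ℕ) [Fact ℓ.Prime] (K : Type) [Field K] [Algebra ℚ_[ℓ] K] [FiniteDimensional ℚ_[ℓ] K]
      [TopologicalSpace K], Odd (Module.finrank ℚ_[ℓ] K) →
    ∀ (R : Realis F (2 * r) m δ ℓ K) (c : ℚ) (s : ℚ_[ℓ]), c ≠ 0 → s ≠ 0 →
    (-1) ^ r * Algebra.norm ℚ_[ℓ] R.B.det = c * s ^ 2 → ∀ v : Pl F, (ℓ : 𝓞 F) ∈ v.asIdeal →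
    Even (od v δ + od v (c : F))

end PQ
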