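import Pool.Agent.Helper94.PQ.DefsT
import Pool.Agent.Helper94.PQ.Stmts

/-!
# Motives of even weight with totally real coefficients: statements of the modules
-/

set_option autoImplicit false

open NumberField
open scoped Classical

namespace PQ

open BKA Pool.Agent.Helper13.Swan

/-! ## L. Ramification groups: displacements -/

section

variable {Ω P : Type} [Field Ω] [Group P] [MulSemiringAction P Ω]

/-- The displacement of the uniformiser: `w (g π - π) = ex (dI g)` for `g ≠ 1` and `dI 1 = 0`. -/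
noncomputable def dI (w : Valuation Ω (WithZero (Multiplicative ℤ))) (π : Ω) (g : P) : ℤ :=
  -WithZero.log (w (g • π - π))

end

/-- DSP: properties of the displacements. -/
def ST_DSP : Prop :=
  ∀ (Ω P : Type) [Field Ω] [Group P] [MulSemiringAction P Ω] [Fintype P] [FaithfulSMul P Ω]
    (w : Valuation Ω (WithZero (Multiplicative ℤ))) (π : Ω) (hB : Base P w π),
    dI w π (1 : P) = 0 ∧
    (∀ g : P, g ≠ 1 → w (g • π - π) = ex (dI w π g)) ∧
    (∀ (g : P) (i : ℕ), g ≠ 1 → (g ∈ Rk hB i ↔ (i : ℤ) + 1 ≤ dI w π g)) ∧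
    (∀ g h : P, dI w π (h * g * h⁻¹) = dI w π g) ∧
    (∀ (g : P) (u : ℕ), u.Coprime (orderOf g) → dI w π (g ^ u) = dI w π g) ∧
    (∀ (H : Subgroup P) (g : P), g ∉ H →
      w (g • nm H π - nm H π) = ex (∑ h : H, dI w π (g * h)))

/-- MISS: The elements of the fixed field of `H` with trace zero to the fixed field of `P` avoid
one class of valuations. -/
def ST_MISS : Prop :=
  ∀ (Ω P : Type) [Field Ω] [Group P] [MulSemiringAction P Ω] [Fintype P] [FaithfulSMul P Ω]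
    (w : Valuation Ω (WithZero (Multiplicative ℤ))) (π : Ω) (_ : Base P w π) (H : Subgroup P)
    (x : Ω), Fx H x → x ≠ 0 →
    (∃ j : ℤ, w x = ex (-(∑ g : P, if g ∈ H then 0 else dI w π g) - (Nat.card H : ℤ) +
      (Nat.card P : ℤ) * j)) →
    ∑ c : P ⧸ H, (Quotient.out c : P) • x ≠ 0

/-- NUM: the arithmetic of the theorem of Sen. -/
def ST_NUM : Prop :=
  ∀ (k : ℕ) (I : ℕ → ℤ),
    (∀ j, 1 ≤ j → j ≤ k → ∀ v l : ℕ, v < j → Odd l →
      ¬ ((2 : ℤ) ^ j ∣ 2 ^ v * l + I v + ∑ i ∈ Finset.range j, 2 ^ (j - 1 - i) * I i)) →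
    ∀ j, 1 ≤ j → j ≤ k →
      (2 : ℤ) ^ j ∣ (∑ i ∈ Finset.range j, 2 ^ (j - 1 - i) * I i) + I (j - 1)

/-- HAC: the theorem of Hasse and Arf for cyclic `2`-groups. -/
def ST_HAC : Prop :=
  ∀ (Ω P : Type) [Field Ω] [Group P] [MulSemiringAction P Ω] [Fintype P] [FaithfulSMul P Ω]
    (w : Valuation Ω (WithZero (Multiplicative ℤ))) (π : Ω) (_ : Base P w π) (a : P) (k : ℕ),
    orderOf a = 2 ^ (k + 1) → (∀ g : P, g ∈ Subgroup.zpowers a) →
    ((2 : ℤ) ^ (k + 1)) ∣ (∑ g : P, dI w π g) + dI w π (a ^ 2 ^ k)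

/-- DIH: parity for dihedral groups. -/
def ST_DIH : Prop :=
  ∀ (Ω P : Type) [Field Ω] [Group P] [MulSemiringAction P Ω] [Fintype P] [FaithfulSMul P Ω]
    (w : Valuation Ω (WithZero (Multiplicative ℤ))) (π : Ω) (_ : Base P w π) (a s : P) (k : ℕ),
    orderOf a = 2 ^ (k + 2) → s ∉ Subgroup.zpowers a →
    (∀ g : P, g ∈ Subgroup.zpowers a ∨ s⁻¹ * g ∈ Subgroup.zpowers a) →
    s * s = 1 → s * a * s⁻¹ = a⁻¹ →
    ((2 : ℤ) ^ (k + 3)) ∣ (∑ g : P, if g ∈ Subgroup.zpowers a then dI w π g else 0) +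
      dI w π (a ^ 2 ^ (k + 1))

/-- QUO: the quotient by a normal subgroup, acting on the fixed field. -/
def ST_QUO : Prop :=
  ∀ (Ω P : Type) [Field Ω] [CharZero Ω] [Group P] [MulSemiringAction P Ω] [Fintype P]
    [FaithfulSMul P Ω] (w : Valuation Ω (WithZero (Multiplicative ℤ))) (π : Ω) (_ : Base P w π)
    (N : Subgroup P) [N.Normal],
    ∃ (Ω' : Type) (_ : Field Ω') (_ : CharZero Ω') (_ : MulSemiringAction (P ⧸ N) Ω')
      (_ : FaithfulSMul (P ⧸ N) Ω') (w' : Valuation Ω' (WithZero (Multiplicative ℤ))) (π' : Ω')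
      (_ : Base (P ⧸ N) w' π') (φ : Ω' →+* Ω),
      (∀ (g : P) (x : Ω'), φ ((g : P ⧸ N) • x) = g • φ x) ∧
      (∀ x, w (φ x) = w' x ^ Nat.card N) ∧
      ∀ g : P, g ∉ N →
        (Nat.card N : ℤ) * dI w' π' (g : P ⧸ N) = ∑ h : N, dI w π (g * h)

/-! ## M. Orthogonal representations of `2`-groups -/

/-- the restriction of a representation to a stable subspace -/
def subR {G k V : Type} [Group G] [Field k] [AddCommGroup V] [Module k V]
    (r : G →* (V →ₗ[k] V)) (W : Submodule k V) (h : ∀ g, ∀ x ∈ W, r g x ∈ W) :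
    G →* (W →ₗ[k] W) where
  toFun g := (r g).restrict (h g)
  map_one' := by
    ext x
    simp
  map_mul' := by
    intro a b
    ext x
    simp

/-- The representation `r` of `P` satisfies the theorem of Serre: there is an element `D` on which
`P` acts by the determinant of `r` and whose square has the valuation of the discriminant attached
to `r`, up to a multiple of `2 |P|`. -/
def Good {Ω P : Type} [Field Ω] [Group P] [MulSemiringAction P Ω] [Fintype P]
    (w : Valuation Ω (WithZero (Multiplicative ℤ))) (π : Ω)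
    {k V : Type} [Field k] [AddCommGroup V] [Module k V]
    (r : P →* (V →ₗ[k] V)) : Prop :=
  ∃ (D : Ω) (s j : ℤ), D ≠ 0 ∧
    (∀ g : P, (LinearMap.det (r g) = 1 ∧ g • D = D) ∨
      (LinearMap.det (r g) = -1 ∧ g • D = -D)) ∧
    (s : k) = ∑ g : P, ((Module.finrank k V : k) - LinearMap.trace k V (r g)) *
      (dI w π g : k) ∧
    w D ^ 2 = ex (s + 2 * (Nat.card P : ℤ) * j)

/-- GADD: direct sums. -/
def ST_GADD : Prop :=
  ∀ (Ω P : Type) [Field Ω] [CharZero Ω] [Group P] [MulSemiringAction P Ω] [Fintype P]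
    (w : Valuation Ω (WithZero (Multiplicative ℤ))) (π : Ω)
    (k V : Type) [Field k] [CharZero k] [AddCommGroup V] [Module k V] [FiniteDimensional k V]
    (r : P →* (V →ₗ[k] V)) (V₁ V₂ : Submodule k V) (_ : IsCompl V₁ V₂)
    (h₁ : ∀ g, ∀ x ∈ V₁, r g x ∈ V₁) (h₂ : ∀ g, ∀ x ∈ V₂, r g x ∈ V₂),
    Good w π (subR r V₁ h₁) → Good w π (subR r V₂ h₂) → Good w π r

/-- GQUO: representations on which a normal subgroup acts trivially. -/
def ST_GQUO : Prop :=
  ∀ (P k V : Type) [Group P] [Fintype P] [Field k] [CharZero k] [AddCommGroup V] [Module k V]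
    [FiniteDimensional k V] (N : Subgroup P) [N.Normal] (r : P →* (V →ₗ[k] V))
    (r' : (P ⧸ N) →* (V →ₗ[k] V)), (∀ g : P, r g = r' (g : P ⧸ N)) →
    (∀ (Ω' : Type) [Field Ω'] [CharZero Ω'] [MulSemiringAction (P ⧸ N) Ω']
      [FaithfulSMul (P ⧸ N) Ω'] (w' : Valuation Ω' (WithZero (Multiplicative ℤ))) (π' : Ω'),
      Base (P ⧸ N) w' π' → Good w' π' r') →
    ∀ (Ω : Type) [Field Ω] [CharZero Ω] [MulSemiringAction P Ω] [FaithfulSMul P Ω]
      (w : Valuation Ω (WithZero (Multiplicative ℤ))) (π : Ω), Base P w π → Good w π r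

/-- GIND: induction from a subgroup of index two. -/
def ST_GIND : Prop :=
  ∀ (Ω P : Type) [Field Ω] [CharZero Ω] [Group P] [MulSemiringAction P Ω] [Fintype P]
    [FaithfulSMul P Ω] (w : Valuation Ω (WithZero (Multiplicative ℤ))) (π : Ω) (_ : Base P w π)
    (k V : Type) [Field k] [CharZero k] [AddCommGroup V] [Module k V] [FiniteDimensional k V]
    (r : P →* (V →ₗ[k] V)) (C : Subgroup P) (s : P), s ∉ C →
    (∀ g : P, g ∈ C ∨ s⁻¹ * g ∈ C) →
    ∀ (W : Submodule k V) (h : ∀ g : C, ∀ x ∈ W, (r.comp C.subtype) g x ∈ W),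
    IsCompl W (W.map (r s)) → Good w π (subR (r.comp C.subtype) W h) → Good w π r

/-- GTHN: cyclic, dihedral, semidihedral and quaternion groups. -/
def ST_GTHN : Prop :=
  ∀ (Ω P : Type) [Field Ω] [CharZero Ω] [Group P] [MulSemiringAction P Ω] [Fintype P]
    [FaithfulSMul P Ω] (w : Valuation Ω (WithZero (Multiplicative ℤ))) (π : Ω) (_ : Base P w π),
    IsPGroup 2 P → ∀ z : P, Thin P z →
  ∀ (k V : Type) [Field k] [CharZero k] [IsAlgClosed k] [AddCommGroup V] [Module k V]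
    [FiniteDimensional k V] (B : V →ₗ[k] V →ₗ[k] k), Symm B →
  ∀ r : P →* (V →ₗ[k] V), (∀ g x y, B (r g x) (r g y) = B x y) → r z = -1 → Good w π r

/-- GALL: all orthogonal representations of `2`-groups, over algebraically closed fields. -/
def ST_GALL : Prop :=
  ∀ (Ω P : Type) [Field Ω] [CharZero Ω] [Group P] [MulSemiringAction P Ω] [Fintype P]
    [FaithfulSMul P Ω] (w : Valuation Ω (WithZero (Multiplicative ℤ))) (π : Ω) (_ : Base P w π),
    IsPGroup 2 P →
  ∀ (k V : Type) [Field k] [CharZero k] [IsAlgClosed k] [AddCommGroup V] [Module k V]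
    [FiniteDimensional k V] (B : V →ₗ[k] V →ₗ[k] k), Symm B →
  ∀ r : P →* (V →ₗ[k] V), (∀ g x y, B (r g x) (r g y) = B x y) → Good w π r

/-- DYADG: the conductor of an orthogonal representation of a `2`-group. -/
def ST_DYADG : Prop :=
  ∀ (Ω P : Type) [Field Ω] [CharZero Ω] [Group P] [MulSemiringAction P Ω] [Fintype P]
    [FaithfulSMul P Ω] (w : Valuation Ω (WithZero (Multiplicative ℤ))) (π : Ω) (hB : Base P w π),
    IsPGroup 2 P →
  ∀ (k V : Type) [Field k] [CharZero k] [AddCommGroup V] [Module k V]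
    [FiniteDimensional k V] (B : V →ₗ[k] V →ₗ[k] k), Symm B →
  ∀ r : P →* (V →ₗ[k] V), (∀ g x y, B (r g x) (r g y) = B x y) →
    ∃ (D : Ω) (j : ℤ), D ≠ 0 ∧
      (∀ s : P, (LinearMap.det (r s) = 1 ∧ s • D = D) ∨
        (LinearMap.det (r s) = -1 ∧ s • D = -D)) ∧
      w D ^ 2 = ex ((∑ᶠ i : ℕ, (Nat.card (Rk hB i) : ℤ) * ((Module.finrank k V : ℤ) -
        Module.finrank k ({ carrier := {x | ∀ g ∈ Rk hB i, r g x = x}
                            zero_mem' := fun _ _ => map_zero _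
                            add_mem' := fun {x y} hx hy g hg => by
                              rw [map_add, hx g hg, hy g hg]
                            smul_mem' := fun a x hx g hg => by
                              rw [map_smul, hx g hg] } : Submodule k V))) +
        2 * (Nat.card P : ℤ) * j)

/-! ## N. The places -/

/-- ODDVT: the parity of the exponent of the conductor at the odd places. -/
def ST_ODDVT : Prop :=
  ∀ (F : Type) [Field F] [NumberField F] (n : ℕ) (m : ℤ) (δ : F), δ ≠ 0 →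
    ∀ (v : Pl F) (a : ℕ), (2 : 𝓞 F) ∉ v.asIdeal →
    ∀ p : ℕ, p.Prime → (p : 𝓞 F) ∈ v.asIdeal →
    ∀ (ℓ : ℕ) [Fact ℓ.Prime] (K : Type) [Field K] [Algebra ℚ_[ℓ] K] [TopologicalSpace K]
      [IsTopologicalRing K] [T2Space K] (ζ : ℚ_[ℓ]), (ℓ : 𝓞 F) ∉ v.asIdeal →
      IsPrimitiveRoot ζ p →
    ∀ R : Orth F n m δ ℓ K, IsCond R.ρ v a → Even ((a : ℤ) + od v δ)

/-- DYADVT: the parity of the exponent of the conductor at the places over `2`. -/
def ST_DYADVT : Prop :=
  ∀ (F : Type) [Field F] [NumberField F] (n : ℕ) (m : ℤ) (δ : F), δ ≠ 0 →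
    ∀ (v : Pl F) (a : ℕ), (2 : 𝓞 F) ∈ v.asIdeal →
    ∀ (ℓ : ℕ) [Fact ℓ.Prime] (K : Type) [Field K] [Algebra ℚ_[ℓ] K] [TopologicalSpace K]
      [IsTopologicalRing K] [T2Space K], (ℓ : 𝓞 F) ∉ v.asIdeal →
    ∀ R : Orth F n m δ ℓ K, IsCond R.ρ v a → Even ((a : ℤ) + od v δ)

/-- HTET: the rank is even. -/
def ST_HTET : Prop :=
  ∀ (F E : Type) [Field F] [NumberField F] [Field E] [NumberField E] (n : ℕ) (m : ℤ) (δ : F)
    (b : E) (ℓ : ℕ) [Fact ℓ.Prime] (_ : RealT F E n m δ b ℓ), Even n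

/-! ## O. The determinant -/

/-- the field generated over `F` by the conjugate `τ (E)` of `E` -/
noncomputable abbrev adj {F E : Type} [Field F] [Field E]
    (τ : E →+* AlgebraicClosure F) : IntermediateField F (AlgebraicClosure F) :=
  IntermediateField.adjoin F (Set.range τ)

/-- HTG: the determinant on decomposition groups. -/
def ST_HTG : Prop :=
  ∀ (F E : Type) [Field F] [NumberField F] [Field E] [NumberField E] (r : ℕ) (m : ℤ) (δ : F)
    (b : E), δ ≠ 0 → b ≠ 0 → ∀ (ℓ : ℕ) [Fact ℓ.Prime], RealT F E (2 * r) m δ b ℓ →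
    ∀ (v : Pl F) (𝔓 : Ideal (Zb F)), (ℓ : 𝓞 F) ∈ v.asIdeal → Over v 𝔓 →
    ∀ (τ : E →+* AlgebraicClosure F) (y t : AlgebraicClosure F),
      y ^ 2 = algebraMap F (AlgebraicClosure F) δ → t ^ 2 = τ ((-1) ^ r * b) →
    ∀ σ : Gal F, (∀ x y : Zb F, (y : AlgebraicClosure F) = σ (x : AlgebraicClosure F) →
        (x ∈ 𝔓 ↔ y ∈ 𝔓)) → (∀ x, σ (τ x) = τ x) → σ (t * y) = t * y

/-- SPLIT: a quadratic extension in which all primes split is trivial. -/
def ST_SPLIT : Prop :=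
  ∀ (F : Type) [Field F] [NumberField F] (L : IntermediateField F (AlgebraicClosure F)),
    FiniteDimensional F L → ∀ z : AlgebraicClosure F, z ^ 2 ∈ L →
    (∀ (v : Pl F) (𝔓 : Ideal (Zb F)), Over v 𝔓 → ∀ σ : Gal F, (∀ x ∈ L, σ x = x) →
      (∀ x y : Zb F, (y : AlgebraicClosure F) = σ (x : AlgebraicClosure F) →
        (x ∈ 𝔓 ↔ y ∈ 𝔓)) → σ z = z) → z ∈ L

open TensorProduct in
/-- TENS: the square root in the tensor product. -/
def ST_TENS : Prop :=
  ∀ (F E : Type) [Field F] [NumberField F] [Field E] [NumberField E] (δ : F) (c : E), δ ≠ 0 →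
    c ≠ 0 →
    (∀ (τ : E →+* AlgebraicClosure F) (y t : AlgebraicClosure F),
      y ^ 2 = algebraMap F (AlgebraicClosure F) δ → t ^ 2 = τ c → t * y ∈ adj τ) →
    ∃ ε : E ⊗[ℚ] F, ε * ε = c ⊗ₜ[ℚ] δ

open TensorProduct in
/-- NRM: the norm of `δ` is a square. -/
def ST_NRM : Prop :=
  ∀ (F E : Type) [Field F] [NumberField F] [Field E] [NumberField E] [IsTotallyComplex F]
    [IsTotallyReal E] (δ : F) (b : E) (r : ℕ), δ ≠ 0 → (∀ ι : E →+* ℂ, 0 < (ι b).re) →
    (∃ ε : E ⊗[ℚ] F, ε * ε = ((-1) ^ r * b) ⊗ₜ[ℚ] δ) → IsSquare (Algebra.norm ℚ δ)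

/-- SQN: the conductor is a square. -/
def ST_SQN : Prop :=
  ∀ (F : Type) [Field F] [NumberField F] (δ : F), δ ≠ 0 → IsSquare (Algebra.norm ℚ δ) →
    ∀ a : Pl F →₀ ℕ, (∀ v : Pl F, Even ((a v : ℤ) + od v δ)) →
    IsSquare (a.prod fun v j => q v ^ j)

end PQ
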