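import Pool.Agent.Helper94.PQ.DefsC
import Pool.Agent.Helper94.PQ.StmtsT

/-!
# Conjugate orthogonal representations: statements of the modules
-/

set_option autoImplicit false

open NumberField
open scoped Classical

namespace PQ

open BKA CP18

/-- CDL: the exponent of the conductor can be computed with any prime over `v` and any large
finite Galois extension. -/
def ST_CDL : Prop :=
  ∀ (F : Type) [Field F] [NumberField F] (k : Type) [Field k] [CharZero k] (n : ℕ)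
    (ρ : Gal F →* Matrix.GeneralLinearGroup (Fin n) k) (v : Pl F) (a : ℕ), IsCond ρ v a →
    ∀ 𝔓 : Ideal (Zb F), Over v 𝔓 → ∃ L₀ : IntermediateField F (AlgebraicClosure F),
      FiniteDimensional F L₀ ∧
      ∀ L : IntermediateField F (AlgebraicClosure F), L₀ ≤ L → FiniteDimensional F L →
        Normal F L →
        (∀ σ : Gal F, Wild 𝔓 σ → (∀ x ∈ L, σ x = x) → ρ σ = 1) ∧
        ramCard L 𝔓 0 * a = ramCard L 𝔓 0 * codim ρ {σ | Congr 𝔓 1 σ} +
          ∑ᶠ i : ℕ, ramCard L 𝔓 (i + 1) * codim ρ {σ | Wild 𝔓 σ ∧ Ram L 𝔓 (i + 1) σ}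

/-- `ρ₀` is the representation induced from the representation `ρ`, where `F` is a quadratic
extension of `F₀`: `θ` is an isomorphism of the algebraic closures and `s` is an automorphism that
fixes `F₀` but not `F`. -/
def IndOf {F F₀ : Type} [Field F] [Field F₀] [Algebra F₀ F] {K : Type} [Field K] {n : ℕ}
    (ρ : Gal F →* Matrix.GeneralLinearGroup (Fin n) K)
    (ρ₀ : Gal F₀ →* Matrix.GeneralLinearGroup (Fin (2 * n)) K) : Prop :=
  ∃ (θ : AlgebraicClosure F ≃+* AlgebraicClosure F₀)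
    (s : AlgebraicClosure F ≃+* AlgebraicClosure F) (e : Fin n ⊕ Fin n ≃ Fin (2 * n)),
    (∀ x : F₀, θ (algebraMap F (AlgebraicClosure F) (algebraMap F₀ F x)) =
      algebraMap F₀ (AlgebraicClosure F₀) x) ∧
    (∀ x : F₀, s (algebraMap F (AlgebraicClosure F) (algebraMap F₀ F x)) =
      algebraMap F (AlgebraicClosure F) (algebraMap F₀ F x)) ∧
    (∃ x : F, s (algebraMap F (AlgebraicClosure F) x) ≠ algebraMap F (AlgebraicClosure F) x) ∧
    (∀ (g : Gal F₀) (σ τ : Gal F), (∀ z, g (θ z) = θ (σ z)) → (∀ z, σ (s z) = s (τ z)) →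
      ((ρ₀ g : Matrix.GeneralLinearGroup (Fin (2 * n)) K) :
        Matrix (Fin (2 * n)) (Fin (2 * n)) K) =
        Matrix.reindex e e (Matrix.fromBlocks
          ((ρ σ : Matrix.GeneralLinearGroup (Fin n) K) : Matrix (Fin n) (Fin n) K) 0 0
          ((ρ τ : Matrix.GeneralLinearGroup (Fin n) K) : Matrix (Fin n) (Fin n) K))) ∧
    ∀ (g : Gal F₀) (τ : Gal F), (∀ z, g (θ z) = θ (s z)) → (∀ z, τ z = s (s z)) →
      ((ρ₀ g : Matrix.GeneralLinearGroup (Fin (2 * n)) K) :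
        Matrix (Fin (2 * n)) (Fin (2 * n)) K) =
        Matrix.reindex e e (Matrix.fromBlocks 0
          ((ρ τ : Matrix.GeneralLinearGroup (Fin n) K) : Matrix (Fin n) (Fin n) K) 1 0)

/-- CIO: the representation induced from a conjugate orthogonal representation is orthogonal. -/
def ST_CIO : Prop :=
  ∀ (F : Type) [Field F] [NumberField F] (c : F ≃ₐ[ℚ] F), (∀ x, c (c x) = x) →
    (∃ x, c x ≠ x) →
    ∃ (F₀ : Type) (_ : Field F₀) (_ : NumberField F₀) (_ : Algebra F₀ F) (δ : F₀),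
      Module.finrank F₀ F = 2 ∧ δ ≠ 0 ∧ (∃ y : F, y ^ 2 = algebraMap F₀ F δ ∧ c y = -y) ∧
      (∀ x : F₀, c (algebraMap F₀ F x) = algebraMap F₀ F x) ∧
      ∀ (n : ℕ) (m : ℤ) (ℓ : ℕ) [Fact ℓ.Prime] (K : Type) [Field K] [Algebra ℚ_[ℓ] K]
        [TopologicalSpace K] [IsTopologicalRing K] [T2Space K] (R : ConjOrthK F c n m ℓ K),
        ∃ R₀ : Orth F₀ (2 * n) m (δ ^ n) ℓ K, IndOf R.ρ R₀.ρ

/-- CIK: the quadratic character. -/
def ST_CIK : Prop :=
  ∀ (F₀ : Type) [Field F₀] [NumberField F₀] (δ : F₀), δ ≠ 0 → ∀ (ℓ : ℕ) [Fact ℓ.Prime]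
    (K : Type) [Field K] [Algebra ℚ_[ℓ] K] [TopologicalSpace K] [IsTopologicalRing K]
    [T2Space K],
    ∃ R₁ : Orth F₀ 1 0 δ ℓ K, ∀ v : Pl F₀, ∃ d : ℕ, IsCond R₁.ρ v d

/-- CIC: the conductor of the induced representation, at a place that ramifies. -/
def ST_CIC : Prop :=
  ∀ (F : Type) [Field F] [NumberField F] (c : F ≃ₐ[ℚ] F) (F₀ : Type) [Field F₀]
    [NumberField F₀] [Algebra F₀ F] (δ : F₀), Module.finrank F₀ F = 2 → δ ≠ 0 →
    (∃ y : F, y ^ 2 = algebraMap F₀ F δ ∧ c y = -y) →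
    (∀ x : F₀, c (algebraMap F₀ F x) = algebraMap F₀ F x) →
    ∀ (ℓ : ℕ) [Fact ℓ.Prime] (K : Type) [Field K] [Algebra ℚ_[ℓ] K] [TopologicalSpace K]
      (R₁ : Orth F₀ 1 0 δ ℓ K) (n : ℕ) (ρ : Gal F →* Matrix.GeneralLinearGroup (Fin n) K)
      (ρ₀ : Gal F₀ →* Matrix.GeneralLinearGroup (Fin (2 * n)) K), IndOf ρ ρ₀ →
    ∀ (v : Pl F) (v₀ : Pl F₀), (∀ x y : 𝓞 F, (y : F) = c (x : F) → y - x ∈ v.asIdeal) →
      v₀.asIdeal = v.asIdeal.comap (algebraMap (𝓞 F₀) (𝓞 F)) → (ℓ : 𝓞 F) ∉ v.asIdeal →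
    ∀ a d : ℕ, IsCond ρ v a → IsCond R₁.ρ v₀ d → IsCond ρ₀ v₀ (a + n * d)

/-- CPAR: the exponent of the conductor of a conjugate orthogonal representation is even at the
places that ramify over the fixed field of `c`. -/
def ST_CPAR : Prop :=
  ∀ (F : Type) [Field F] [NumberField F] (c : F ≃ₐ[ℚ] F), (∀ x, c (c x) = x) →
    (∃ x, c x ≠ x) → ∀ (n : ℕ) (m : ℤ) (v : Pl F) (a : ℕ),
    (∀ x y : 𝓞 F, (y : F) = c (x : F) → y - x ∈ v.asIdeal) →
    ∀ p : ℕ, p.Prime → (p : 𝓞 F) ∈ v.asIdeal →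
    ∀ (ℓ : ℕ) [Fact ℓ.Prime] (K : Type) [Field K] [Algebra ℚ_[ℓ] K] [TopologicalSpace K]
      [IsTopologicalRing K] [T2Space K] (ζ : ℚ_[ℓ]), (ℓ : 𝓞 F) ∉ v.asIdeal →
      IsPrimitiveRoot ζ p →
    ∀ R : ConjOrthK F c n m ℓ K, IsCond R.ρ v a → Even a

end PQ
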