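import Pool.Agent.Helper94.PQ.StmtsK
import Pool.Agent.Helper94.PQ.Main

/-!
# Motives of even weight with coefficients in a field of odd degree: the theorem from the modules
-/

set_option autoImplicit false

open NumberField
open scoped Classical

namespace PQ

open BKA CP18

/-- the part of the conductor at the finite places is a square -/
theorem cond_squareK (h1 : ST_ODDVK) (h2 : ST_DYADVK) (h3 : ST_QSQ) (h4 : ST_HTEK)
    (h5 : ST_HTVK) (h6 : ST_SQ) (h7 : ST_ZP) {F : Type} [Field F] [NumberField F]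
    [IsTotallyComplex F] {n : ℕ} {m : ℤ}
    (R : RealisationsK F n m) (a : Pl F →₀ ℕ)
    (ha : ∀ (ℓ : ℕ) [Fact ℓ.Prime] (v : Pl F), (ℓ : 𝓞 F) ∉ v.asIdeal →
      IsCond (R.real ℓ).ρ v (a v)) :
    IsSquare (a.prod fun v j => q v ^ j) := by
  have : Fact (Nat.Prime 2) := ⟨Nat.prime_two⟩
  have : Fact (Nat.Prime 3) := ⟨Nat.prime_three⟩
  obtain ⟨r, hr⟩ := h4 F n m R.δ 2 (R.K 2) (R.real 2)
  rw [← two_mul] at hr
  subst hr
  refine h6 F ?_ a ?_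
  · rw [IsTotallyComplex.finrank]
    exact even_two_mul _
  · intro ℓ hℓ
    have : Fact ℓ.Prime := ⟨hℓ⟩
    have hne : (-1) ^ r * Algebra.norm ℚ_[ℓ] (R.real ℓ).B.det ≠ 0 :=
      mul_ne_zero (pow_ne_zero _ (by norm_num))
        (by rw [Ne, Algebra.norm_eq_zero_iff]; exact (R.real ℓ).nondeg)
    obtain ⟨c, s, hc, hs, hcs⟩ := h3 ℓ _ hne
    refine ⟨c, hc, fun v hv => ?_⟩
    have e1 := h5 F r m R.δ R.δ_ne ℓ (R.K ℓ) (R.odd ℓ) (R.real ℓ) c s hc hs hcs v hv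
    have e2 : Even ((a v : ℤ) + od v R.δ) := by
      by_cases h2v : (2 : 𝓞 F) ∈ v.asIdeal
      · refine h2 F _ m R.δ R.δ_ne v (a v) h2v (R.K 3) (R.odd 3) (R.real 3) (ha 3 v ?_)
        intro h3v
        have h8 : (1 : 𝓞 F) ∈ v.asIdeal := by
          have h9 := v.asIdeal.sub_mem h3v h2v
          have e : ((3 : ℕ) : 𝓞 F) - 2 = 1 := by norm_num
          rwa [e] at h9
        exact v.isPrime.ne_top ((Ideal.eq_top_iff_one _).2 h8)
      · obtain ⟨ℓ', hℓ', ζ, hne', hζ⟩ := h7 ℓ hℓ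
        refine h1 F _ m R.δ R.δ_ne v (a v) h2v ℓ hℓ hv ℓ' (R.K ℓ') ζ ?_ hζ (R.real ℓ')
          (ha ℓ' v ?_)
        all_goals
          intro hv'
          have hcop : IsCoprime (ℓ : ℤ) (ℓ' : ℤ) := by
            rw [Nat.isCoprime_iff_coprime]
            exact (Nat.coprime_primes hℓ hℓ'.out).2 (Ne.symm hne')
          obtain ⟨x, y, hxy⟩ := hcop
          have h8 : (1 : 𝓞 F) ∈ v.asIdeal := by
            have h9 : ((x * (ℓ : ℤ) + y * (ℓ' : ℤ) : ℤ) : 𝓞 F) ∈ v.asIdeal := by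
              push_cast
              exact v.asIdeal.add_mem (v.asIdeal.mul_mem_left _ hv)
                (v.asIdeal.mul_mem_left _ hv')
            rw [hxy] at h9
            simpa using h9
          exact v.isPrime.ne_top ((Ideal.eq_top_iff_one _).2 h8)
    have e3 : (a v : ℤ) + od v (c : F) =
        ((a v : ℤ) + od v R.δ) + (od v R.δ + od v (c : F)) - 2 * od v R.δ := by ring
    rw [e3]
    exact (e2.add e1).sub (even_two_mul _)

/-- The theorem on ratios, from the fact that the conductor is a square. -/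
theorem ratio_of_square (F E : Type) [Field F] [NumberField F] [Field E] [NumberField E]
    (r : ℕ) (m : ℤ) (M : MotT F E (2 * r) (2 * m)) (a : Pl F →₀ ℕ)
    (hsq : IsSquare (a.prod fun v j => q v ^ j))
    (Λ : (E →+* ℂ) → ℂ → ℂ) (hΛ : ∀ ι, Contn (M.L ι) (Λ ι) m)
    (h0 : ∀ ι, Λ ι (m + 1) ≠ 0) (ε : ℤ) (hε : ε = 1 ∨ ε = -1)
    (hfe : ∀ ι, FunEq (Λ ι) (2 * m) (CP18.cond F (2 * r) a) ε) :
    (M.Crit m ∧ M.Crit (m + 1) ∧ Ratio F E (2 * r) m Λ) ∧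
      (∀ j : ℤ, (∀ ι, AnalyticAt ℂ (Λ ι) j ∧ AnalyticAt ℂ (Λ ι) (j + 1) ∧
        AnalyticAt ℂ (Λ ι) ((2 * m - j : ℤ) : ℂ) ∧ AnalyticAt ℂ (Λ ι) ((2 * m - j : ℤ) + 1)) →
      Ratio F E (2 * r) j Λ → Ratio F E (2 * r) (2 * m - j) Λ) ∧
      ((∃ ι, M.h ι (m - 1) ≠ 0) → ∀ j : ℤ, M.Crit j → M.Crit (j + 1) → j = m) := by
  have hN0 : ((CP18.cond F (2 * r) a : ℕ) : ℂ) ≠ 0 := by
    have hd : (discr F).natAbs ≠ 0 := by
      rw [Ne, Int.natAbs_eq_zero]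
      exact discr_ne_zero F
    have h7 : CP18.cond F (2 * r) a ≠ 0 := by
      unfold CP18.cond
      refine mul_ne_zero (pow_ne_zero _ hd) ?_
      rw [Finsupp.prod, Finset.prod_ne_zero_iff]
      intro v _
      exact pow_ne_zero _ (q_pos v)
    exact_mod_cast h7
  have hε0 : (ε : ℚ) ≠ 0 := by
    rcases hε with h | h <;> rw [h] <;> norm_num
  refine ⟨⟨?_, ?_, ?_⟩, ?_, ?_⟩
  · intro ι p hp
    have := (M.hodge ι).1 p hp
    omega
  · intro ι p hp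
    have := (M.hodge ι).1 p hp
    omega
  · intro δ hδ
    obtain ⟨x, hx, hx'⟩ := sqrt_cond' r a hsq δ hδ
    refine ⟨((ε * x : ℚ) : E), by exact_mod_cast mul_ne_zero hε0 hx, ?_⟩
    intro ι
    have e1 : (((2 * m : ℤ) : ℂ) + 1 - (m : ℂ)) = (m : ℂ) + 1 := by push_cast; ring
    have h1 := hfe ι (m : ℂ) (hΛ ι).2.2.1 (by rw [e1]; exact (hΛ ι).2.2.2)
    have e2 : ((((2 * m : ℤ) : ℂ) + 1) / 2 - (m : ℂ)) = 1 / 2 := by push_cast; ring
    rw [e1, e2, hx'] at h1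
    rw [h1, mul_div_assoc, div_self (h0 ι), mul_one]
    push_cast
    rw [map_mul, map_intCast, map_ratCast]
    ring
  · intro j hj hR δ hδ
    obtain ⟨e, he, he'⟩ := hR δ hδ
    obtain ⟨b, hb, hb'⟩ := factor_sq hδ (Module.finrank ℚ F / 2)
    set z : ℂ := Complex.I ^ (Module.finrank ℚ F / 2) * δ with hz
    have hz0 : z ≠ 0 := by
      intro h2
      rw [h2] at hb'
      apply hb
      have h3 : ((b : ℚ) : ℂ) = 0 := by rw [← hb']; ring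
      exact_mod_cast h3
    have hbE : ((b : ℚ) : E) ≠ 0 := by exact_mod_cast hb
    have hNE : ((CP18.cond F (2 * r) a : ℕ) : E) ≠ 0 := by
      intro h
      have h4 : CP18.cond F (2 * r) a = 0 := by exact_mod_cast h
      exact hN0 (by rw [h4]; simp)
    refine ⟨(CP18.cond F (2 * r) a : E) / (e * ((b : ℚ) : E) ^ (2 * r)),
      div_ne_zero hNE (mul_ne_zero he (pow_ne_zero _ hbE)), ?_⟩
    intro ι
    obtain ⟨a1, a2, a3, a4⟩ := hj ι
    have h5 := he' ι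
    have hιe : ι e ≠ 0 := by
      rw [Ne, map_eq_zero]
      exact he
    have hne : Λ ι j / Λ ι (j + 1) ≠ 0 := by
      rw [h5]
      exact mul_ne_zero hιe (pow_ne_zero _ hz0)
    have hj0 : Λ ι j ≠ 0 := fun h => hne (by rw [h, zero_div])
    have hj1 : Λ ι (j + 1) ≠ 0 := fun h => hne (by rw [h, div_zero])
    have e1 : (((2 * m : ℤ) : ℂ) + 1 - (j : ℂ)) = ((2 * m - j : ℤ) : ℂ) + 1 := by
      push_cast; ring
    have e2 : (((2 * m : ℤ) : ℂ) + 1 - ((j : ℂ) + 1)) = ((2 * m - j : ℤ) : ℂ) := by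
      push_cast; ring
    have f1 := hfe ι (j : ℂ) a1 (by rw [e1]; exact a4)
    have f2 := hfe ι ((j : ℂ) + 1) a2 (by rw [e2]; exact a3)
    rw [e1] at f1
    rw [e2] at f2
    have e3 : ((CP18.cond F (2 * r) a : ℕ) : ℂ) ^ ((((2 * m : ℤ) : ℂ) + 1) / 2 - (j : ℂ)) =
        (CP18.cond F (2 * r) a : ℕ) * ((CP18.cond F (2 * r) a : ℕ) : ℂ) ^
          ((((2 * m : ℤ) : ℂ) + 1) / 2 - ((j : ℂ) + 1)) := by
      have e4 : ((((2 * m : ℤ) : ℂ) + 1) / 2 - (j : ℂ)) =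
          1 + ((((2 * m : ℤ) : ℂ) + 1) / 2 - ((j : ℂ) + 1)) := by ring
      rw [e4, Complex.cpow_add _ _ hN0, Complex.cpow_one]
    rw [e3] at f1
    set P : ℂ :=
      ((CP18.cond F (2 * r) a : ℕ) : ℂ) ^ ((((2 * m : ℤ) : ℂ) + 1) / 2 - ((j : ℂ) + 1)) with hP
    have hεC : (ε : ℂ) ≠ 0 := by
      rcases hε with h | h <;> rw [h] <;> norm_num
    have hP0 : P ≠ 0 := by
      intro h
      rw [h, mul_zero, zero_mul] at f2
      exact hj1 f2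
    have g1 : Λ ι (((2 * m - j : ℤ) : ℂ) + 1) ≠ 0 := by
      intro h
      rw [h, mul_zero] at f1
      exact hj0 f1
    have h6 : Λ ι ((2 * m - j : ℤ) : ℂ) / Λ ι (((2 * m - j : ℤ) : ℂ) + 1) =
        (CP18.cond F (2 * r) a : ℕ) / (Λ ι j / Λ ι (j + 1)) := by
      rw [f1, f2] at *
      field_simp
    rw [h6, h5]
    have hb2 : z ^ (2 * (2 * r)) = ((b : ℚ) : ℂ) ^ (2 * r) := by rw [pow_mul, hb']
    have hbC : ((b : ℚ) : ℂ) ≠ 0 := by exact_mod_cast hb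
    rw [map_div₀, map_mul, map_pow, map_natCast, map_ratCast]
    rw [div_eq_iff (mul_ne_zero hιe (pow_ne_zero _ hz0))]
    have h7 : (CP18.cond F (2 * r) a : ℂ) / (ι e * ((b : ℚ) : ℂ) ^ (2 * r)) * z ^ (2 * r) *
        (ι e * z ^ (2 * r)) =
        (CP18.cond F (2 * r) a : ℂ) * (z ^ (2 * (2 * r)) / ((b : ℚ) : ℂ) ^ (2 * r)) *
          (ι e / ι e) := by
      field_simp
      ring
    rw [h7, hb2, div_self (pow_ne_zero _ hbC), div_self hιe]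
    ring
  · rintro ⟨ι, hh⟩ j hj hj1
    have hp : m - 1 ∈ (M.h ι).support := Finsupp.mem_support_iff.2 hh
    have e1 := hj ι (m - 1) hp
    have e2 := hj1 ι (m - 1) hp
    omega

/-- The theorem, from the statements of the modules. -/
theorem mainK (h1 : ST_ODDVK) (h2 : ST_DYADVK) (h3 : ST_QSQ) (h4 : ST_HTEK)
    (h5 : ST_HTVK) (h6 : ST_SQ) (h7 : ST_ZP) (F E : Type) [Field F] [NumberField F]
    [IsTotallyComplex F] [Field E] [NumberField E] (n : ℕ) (m : ℤ)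
    (M : MotT F E n (2 * m)) (R : RealisationsK F n m) (a : Pl F →₀ ℕ)
    (ha : ∀ (ℓ : ℕ) [Fact ℓ.Prime] (v : Pl F), (ℓ : 𝓞 F) ∉ v.asIdeal →
      IsCond (R.real ℓ).ρ v (a v))
    (Λ : (E →+* ℂ) → ℂ → ℂ) (hΛ : ∀ ι, Contn (M.L ι) (Λ ι) m)
    (h0 : ∀ ι, Λ ι (m + 1) ≠ 0) (ε : ℤ) (hε : ε = 1 ∨ ε = -1)
    (hfe : ∀ ι, FunEq (Λ ι) (2 * m) (CP18.cond F n a) ε) :
    (M.Crit m ∧ M.Crit (m + 1) ∧ Ratio F E n m Λ) ∧
      (∀ j : ℤ, (∀ ι, AnalyticAt ℂ (Λ ι) j ∧ AnalyticAt ℂ (Λ ι) (j + 1) ∧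
        AnalyticAt ℂ (Λ ι) ((2 * m - j : ℤ) : ℂ) ∧ AnalyticAt ℂ (Λ ι) ((2 * m - j : ℤ) + 1)) →
      Ratio F E n j Λ → Ratio F E n (2 * m - j) Λ) ∧
      ((∃ ι, M.h ι (m - 1) ≠ 0) → ∀ j : ℤ, M.Crit j → M.Crit (j + 1) → j = m) := by
  have hsq := cond_squareK h1 h2 h3 h4 h5 h6 h7 R a ha
  have : Fact (Nat.Prime 2) := ⟨Nat.prime_two⟩
  obtain ⟨r, hr⟩ := h4 F n m R.δ 2 (R.K 2) (R.real 2)
  rw [← two_mul] at hr
  subst hr
  exact ratio_of_square F E r m M a hsq Λ hΛ h0 ε hε hfe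

end PQ
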