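import Pool.Agent.Helper94.PQ.StmtsT
import Pool.Agent.Helper94.PQ.MainK

/-!
# Motives of even weight with totally real coefficients: the theorem from the modules
-/

set_option autoImplicit false

open NumberField
open scoped Classical

namespace PQ

open BKA CP18

theorem not_mem_of_coprime {F : Type} [Field F] [NumberField F] {v : Pl F} {ℓ ℓ' : ℕ}
    (h : Nat.Coprime ℓ ℓ') (hv : (ℓ : 𝓞 F) ∈ v.asIdeal) : (ℓ' : 𝓞 F) ∉ v.asIdeal := by
  intro hv'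
  have hcop : IsCoprime (ℓ : ℤ) (ℓ' : ℤ) := Nat.isCoprime_iff_coprime.2 h
  obtain ⟨x, y, hxy⟩ := hcop
  have h8 : (1 : 𝓞 F) ∈ v.asIdeal := by
    have h9 : ((x * (ℓ : ℤ) + y * (ℓ' : ℤ) : ℤ) : 𝓞 F) ∈ v.asIdeal := by
      push_cast
      exact v.asIdeal.add_mem (v.asIdeal.mul_mem_left _ hv) (v.asIdeal.mul_mem_left _ hv')
    rw [hxy] at h9
    simpa using h9
  exact v.isPrime.ne_top ((Ideal.eq_top_iff_one _).2 h8)

theorem exists_prime_mem {F : Type} [Field F] [NumberField F] (v : Pl F) :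
    ∃ ℓ : ℕ, ℓ.Prime ∧ (ℓ : 𝓞 F) ∈ v.asIdeal := by
  have h0 : (q v : 𝓞 F) ∈ v.asIdeal := by
    unfold q
    exact Ideal.absNorm_mem _
  have hq : q v ≠ 0 := q_pos v
  by_contra hc
  push Not at hc
  have key : ∀ N : ℕ, N ≠ 0 → (N : 𝓞 F) ∉ v.asIdeal := by
    intro N
    induction N using Nat.recOnMul with
    | zero => intro h; exact absurd rfl h
    | one =>
      intro _ h1
      rw [Nat.cast_one] at h1
      exact v.isPrime.ne_top ((Ideal.eq_top_iff_one _).2 h1)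
    | prime p hp => intro _; exact hc p hp
    | mul a b iha ihb =>
      intro hab h1
      rw [Nat.cast_mul] at h1
      rcases v.isPrime.mem_or_mem h1 with h2 | h2
      · exact iha (left_ne_zero_of_mul hab) h2
      · exact ihb (right_ne_zero_of_mul hab) h2
  exact key _ hq h0

/-- the part of the conductor at the finite places is a square -/
theorem cond_squareT (h1 : ST_ODDVT) (h2 : ST_DYADVT) (h3 : ST_ZP) (h4 : ST_HTG)
    (h5 : ST_SPLIT) (h6 : ST_TENS) (h7 : ST_NRM) (h8 : ST_SQN)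
    {F E : Type} [Field F] [NumberField F] [IsTotallyComplex F] [Field E] [NumberField E]
    [IsTotallyReal E] {r : ℕ} {m : ℤ} {δ : F} (hδ : δ ≠ 0) {b : E}
    (hb : ∀ ι : E →+* ℂ, 0 < (ι b).re)
    (R : ∀ (ℓ : ℕ) [Fact ℓ.Prime], RealT F E (2 * r) m δ b ℓ) (a : Pl F →₀ ℕ)
    (ha : ∀ (ℓ : ℕ) [Fact ℓ.Prime] (v : Pl F), (ℓ : 𝓞 F) ∉ v.asIdeal →
      ∀ i, IsCond ((R ℓ).orth i).ρ v (a v)) :
    IsSquare (a.prod fun v j => q v ^ j) := by
  have hb0 : b ≠ 0 := by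
    rintro rfl
    obtain ⟨ι⟩ : Nonempty (E →+* ℂ) := inferInstance
    have := hb ι
    rw [map_zero] at this
    exact lt_irrefl _ this
  have hc0 : (-1) ^ r * b ≠ 0 := mul_ne_zero (pow_ne_zero _ (by norm_num)) hb0
  refine h8 F δ hδ ?_ a ?_
  · refine h7 F E δ b r hδ hb (h6 F E δ _ hδ hc0 ?_)
    intro τ y t hy ht
    have hyL : y ^ 2 ∈ adj (F := F) τ := by
      rw [hy]
      exact IntermediateField.algebraMap_mem _ _
    have htL : t ^ 2 ∈ adj (F := F) τ := by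
      rw [ht]
      exact IntermediateField.subset_adjoin _ _ ⟨_, rfl⟩
    have hfd : FiniteDimensional F (adj (F := F) τ) := by
      let B := Module.Free.chooseBasis ℚ E
      have hB : (adj (F := F) τ) =
          IntermediateField.adjoin F (Set.range fun i => τ (B i)) := by
        apply le_antisymm
        · rw [IntermediateField.adjoin_le_iff]
          rintro _ ⟨x, rfl⟩
          rw [← B.sum_repr x, map_sum]
          refine sum_mem fun i _ => ?_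
          rw [Algebra.smul_def, map_mul]
          refine mul_mem ?_ (IntermediateField.subset_adjoin _ _ ⟨i, rfl⟩)
          have e1 : τ (algebraMap ℚ E (B.repr x i)) =
              algebraMap F (AlgebraicClosure F) (algebraMap ℚ F (B.repr x i)) := by
            simp
          rw [e1]
          exact IntermediateField.algebraMap_mem _ _
        · apply IntermediateField.adjoin.mono
          rintro _ ⟨i, rfl⟩
          exact ⟨_, rfl⟩
      rw [hB]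
      apply IntermediateField.finiteDimensional_adjoin
      intro x _
      exact Algebra.IsIntegral.isIntegral x
    refine h5 F (adj τ) hfd (t * y) (by rw [mul_pow]; exact mul_mem htL hyL) ?_
    intro v 𝔓 hv σ hσ hσ'
    obtain ⟨ℓ, hℓ, hℓv⟩ := exists_prime_mem v
    have : Fact ℓ.Prime := ⟨hℓ⟩
    exact h4 F E r m δ b hδ hb0 ℓ (R ℓ) v 𝔓 hℓv hv τ y t hy ht σ hσ'
      (fun x => hσ _ (IntermediateField.subset_adjoin _ _ ⟨x, rfl⟩))
  · intro v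
    have hne : ∀ (ℓ : ℕ) [Fact ℓ.Prime], Nonempty (R ℓ).I := by
      intro ℓ _
      obtain ⟨f⟩ : Nonempty (E →+* AlgebraicClosure ℚ_[ℓ]) := by
        obtain ⟨g⟩ : Nonempty (E →ₐ[ℚ] AlgebraicClosure ℚ_[ℓ]) :=
          ⟨IsAlgClosed.lift⟩
        exact ⟨g.toRingHom⟩
      obtain ⟨p, -, -⟩ := (R ℓ).ext (AlgebraicClosure ℚ_[ℓ]) f
      exact ⟨p.1⟩
    by_cases h2v : (2 : 𝓞 F) ∈ v.asIdeal
    · have : Fact (Nat.Prime 3) := ⟨Nat.prime_three⟩
      obtain ⟨i⟩ := hne 3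
      have h3v : ((3 : ℕ) : 𝓞 F) ∉ v.asIdeal :=
        not_mem_of_coprime (ℓ := 2) (by norm_num) (by exact_mod_cast h2v)
      exact h2 F _ m δ hδ v (a v) h2v 3 ((R 3).K i) h3v ((R 3).orth i) (ha 3 v h3v i)
    · obtain ⟨p, hp, hpv⟩ := exists_prime_mem v
      obtain ⟨ℓ, hℓ, ζ, hne', hζ⟩ := h3 p hp
      obtain ⟨i⟩ := hne ℓ
      have hℓv : (ℓ : 𝓞 F) ∉ v.asIdeal :=
        not_mem_of_coprime ((Nat.coprime_primes hp hℓ.out).2 (Ne.symm hne')) hpv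
      exact h1 F _ m δ hδ v (a v) h2v p hp hpv ℓ ((R ℓ).K i) ζ hℓv hζ ((R ℓ).orth i)
        (ha ℓ v hℓv i)

/-- The theorem, from the statements of the modules. -/
theorem mainT (h1 : ST_ODDVT) (h2 : ST_DYADVT) (h3 : ST_ZP) (h4 : ST_HTG)
    (h5 : ST_SPLIT) (h6 : ST_TENS) (h7 : ST_NRM) (h8 : ST_SQN) (h9 : ST_HTET)
    (F E : Type) [Field F] [NumberField F] [IsTotallyComplex F] [Field E] [NumberField E]
    [IsTotallyReal E] (n : ℕ) (m : ℤ) (M : MotT F E n (2 * m)) (δ : F) (hδ : δ ≠ 0) (b : E)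
    (hb : ∀ ι : E →+* ℂ, 0 < (ι b).re)
    (R : ∀ (ℓ : ℕ) [Fact ℓ.Prime], RealT F E n m δ b ℓ) (a : Pl F →₀ ℕ)
    (ha : ∀ (ℓ : ℕ) [Fact ℓ.Prime] (v : Pl F), (ℓ : 𝓞 F) ∉ v.asIdeal →
      ∀ i, IsCond ((R ℓ).orth i).ρ v (a v))
    (Λ : (E →+* ℂ) → ℂ → ℂ) (hΛ : ∀ ι, Contn (M.L ι) (Λ ι) m)
    (h0 : ∀ ι, Λ ι (m + 1) ≠ 0) (ε : ℤ) (hε : ε = 1 ∨ ε = -1)
    (hfe : ∀ ι, FunEq (Λ ι) (2 * m) (CP18.cond F n a) ε) :
    (M.Crit m ∧ M.Crit (m + 1) ∧ Ratio F E n m Λ) ∧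
      (∀ j : ℤ, (∀ ι, AnalyticAt ℂ (Λ ι) j ∧ AnalyticAt ℂ (Λ ι) (j + 1) ∧
        AnalyticAt ℂ (Λ ι) ((2 * m - j : ℤ) : ℂ) ∧ AnalyticAt ℂ (Λ ι) ((2 * m - j : ℤ) + 1)) →
      Ratio F E n j Λ → Ratio F E n (2 * m - j) Λ) ∧
      ((∃ ι, M.h ι (m - 1) ≠ 0) → ∀ j : ℤ, M.Crit j → M.Crit (j + 1) → j = m) := by
  have : Fact (Nat.Prime 2) := ⟨Nat.prime_two⟩
  obtain ⟨r, hr⟩ := h9 F E n m δ b 2 (R 2)
  rw [← two_mul] at hr
  subst hr
  have hsq := cond_squareT h1 h2 h3 h4 h5 h6 h7 h8 hδ hb R a ha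
  exact ratio_of_square F E r m M a hsq Λ hΛ h0 ε hε hfe

end PQ
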