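import Pool.Agent.Helper94.PQ.StmtsC
import Pool.Agent.Helper94.PQ.MainT

/-!
# The central pair of critical values of a conjugate self-dual motive, arbitrary ramification: the
theorem from the modules
-/

set_option autoImplicit false

open NumberField
open scoped Classical

namespace PQ

open BKA CP18

/-- CPAR from the other modules. -/
theorem cpar (h1 : ST_ODDVT) (h2 : ST_DYADVT) (h3 : ST_CIO) (h4 : ST_CIK) (h5 : ST_CIC) :
    ST_CPAR := by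
  intro F _ _ c hc hc1 n m v a hv p hp hpv ℓ _ K _ _ _ _ _ ζ hℓv hζ R ha
  obtain ⟨F₀, i1, i2, i3, δ, hfr, hδ, hy, hfix, hR⟩ := h3 F c hc hc1
  obtain ⟨R₀, hI⟩ := hR n m ℓ K R
  obtain ⟨R₁, hd⟩ := h4 F₀ δ hδ ℓ K
  have hv0 : v.asIdeal.comap (algebraMap (𝓞 F₀) (𝓞 F)) ≠ ⊥ := by
    intro h
    apply hp.ne_zero
    have h6 : ((p : ℕ) : 𝓞 F₀) ∈ v.asIdeal.comap (algebraMap (𝓞 F₀) (𝓞 F)) := by
      rw [Ideal.mem_comap, map_natCast]
      exact hpv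
    rw [h, Ideal.mem_bot] at h6
    exact_mod_cast h6
  let v₀ : Pl F₀ := ⟨v.asIdeal.comap (algebraMap (𝓞 F₀) (𝓞 F)),
    Ideal.comap_isPrime _ _, hv0⟩
  have hmem : ∀ N : ℕ, ((N : 𝓞 F₀) ∈ v₀.asIdeal ↔ (N : 𝓞 F) ∈ v.asIdeal) := by
    intro N
    change ((N : ℕ) : 𝓞 F₀) ∈ v.asIdeal.comap (algebraMap (𝓞 F₀) (𝓞 F)) ↔ _
    rw [Ideal.mem_comap, map_natCast]
  obtain ⟨d, hd⟩ := hd v₀
  have e0 := h5 F c F₀ δ hfr hδ hy hfix ℓ K R₁ n R.ρ R₀.ρ hI v v₀ hv rfl hℓv a d ha hd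
  have key : ∀ (n' : ℕ) (m' : ℤ) (δ' : F₀), δ' ≠ 0 → ∀ (R' : Orth F₀ n' m' δ' ℓ K) (a' : ℕ),
      IsCond R'.ρ v₀ a' → Even ((a' : ℤ) + od v₀ δ') := by
    intro n' m' δ' hδ' R' a' ha'
    have hℓv₀ : (ℓ : 𝓞 F₀) ∉ v₀.asIdeal := fun h => hℓv ((hmem ℓ).1 h)
    by_cases h2v : (2 : 𝓞 F₀) ∈ v₀.asIdeal
    · exact h2 F₀ n' m' δ' hδ' v₀ a' h2v ℓ K hℓv₀ R' ha'
    · exact h1 F₀ n' m' δ' hδ' v₀ a' h2v p hp ((hmem p).2 hpv) ℓ K ζ hℓv₀ hζ R' ha'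
  have e1 := key 1 0 δ hδ R₁ d hd
  have e2 := key (2 * n) m (δ ^ n) (pow_ne_zero _ hδ) R₀ (a + n * d) e0
  have e3 : od v₀ (δ ^ n) = n * od v₀ δ := by
    unfold od
    rw [map_pow, WithZero.log_pow]
    simp
  rw [e3] at e2
  have e4 : ((a + n * d : ℕ) : ℤ) + n * od v₀ δ = a + n * (d + od v₀ δ) := by
    push_cast
    ring
  rw [e4] at e2
  have e5 : Even ((n : ℤ) * (d + od v₀ δ)) := e1.mul_left _
  have e6 : Even ((a : ℤ)) := by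
    have := e2.sub e5
    rwa [add_sub_cancel_right] at this
  exact_mod_cast e6

theorem centralC (h1' : ST_CPAR) (h2' : ST_ZP) (F E : Type) [Field F] [NumberField F] [Field E] [NumberField E]
    (c : F ≃ₐ[ℚ] F) (hc : ∀ x, c (c x) = x)
    (hcm : ∃ D : maximalRealSubfield F, IsCMElt F D)
    (hcy : ∀ (D : maximalRealSubfield F) (y : F), IsCMElt F D → y ^ 2 = D → c y = -y)
    (n : ℕ) (m : ℤ) (M : MotT F E n (2 * m)) (a : Pl F →₀ ℕ)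
    (ha : ∀ v v' : Pl F, (∀ x y : 𝓞 F, (y : F) = c (x : F) → (x ∈ v.asIdeal ↔ y ∈ v'.asIdeal)) →
      a v = a v')
    (K : ∀ (ℓ : ℕ) [Fact ℓ.Prime], Type) [∀ (ℓ : ℕ) [Fact ℓ.Prime], Field (K ℓ)]
    [∀ (ℓ : ℕ) [Fact ℓ.Prime], Algebra ℚ_[ℓ] (K ℓ)]
    [∀ (ℓ : ℕ) [Fact ℓ.Prime], TopologicalSpace (K ℓ)]
    [∀ (ℓ : ℕ) [Fact ℓ.Prime], IsTopologicalRing (K ℓ)]
    [∀ (ℓ : ℕ) [Fact ℓ.Prime], T2Space (K ℓ)]
    (R : ∀ (ℓ : ℕ) [Fact ℓ.Prime], ConjOrthK F c n m ℓ (K ℓ))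
    (ht : ∀ v : Pl F, (∀ x y : 𝓞 F, (y : F) = c (x : F) → y - x ∈ v.asIdeal) →
      ∀ (ℓ : ℕ) [Fact ℓ.Prime], (ℓ : 𝓞 F) ∉ v.asIdeal → IsCond (R ℓ).ρ v (a v))
    (Λ : (E →+* ℂ) → ℂ → ℂ) (hΛ : ∀ ι, Contn (M.L ι) (Λ ι) m)
    (h0 : ∀ ι, Λ ι (m + 1) ≠ 0) (ε : ℤ) (hε : ε = 1 ∨ ε = -1)
    (hfe : ∀ ι, FunEq (Λ ι) (2 * m) (CP18.cond F n a) ε) :
    (M.Crit m ∧ M.Crit (m + 1) ∧ Ratio F E n m Λ) ∧
      ∀ j : ℤ, (∀ ι, AnalyticAt ℂ (Λ ι) j ∧ AnalyticAt ℂ (Λ ι) (j + 1) ∧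
        AnalyticAt ℂ (Λ ι) ((2 * m - j : ℤ) : ℂ) ∧ AnalyticAt ℂ (Λ ι) ((2 * m - j : ℤ) + 1)) →
      Ratio F E n j Λ → Ratio F E n (2 * m - j) Λ := by
  have hsq : IsSquare (a.prod fun v j => q v ^ j) := by
    refine conductor_square hc a ?_ ?_
    · intro v
      refine ha (cPl c v) v ?_
      intro x y hxy
      have h1 : y = cO c x := RingOfIntegers.ext hxy
      rw [h1]
      exact mem_cPl
    · intro v _ hi
      have hv' : ∀ x y : 𝓞 F, (y : F) = c (x : F) → y - x ∈ v.asIdeal := by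
        intro x y hxy
        have h1 : y = cO c x := RingOfIntegers.ext hxy
        rw [h1]
        exact hi x
      have hc1 : ∃ x, c x ≠ x := by
        obtain ⟨D, hD⟩ := hcm
        obtain ⟨y, hy⟩ := hD.2
        rw [← sq] at hy
        refine ⟨y, fun h => ?_⟩
        have h2 := hcy D y hD hy.symm
        rw [h] at h2
        have h3 : y = 0 := by
          have h4 : (2 : F) * y = 0 := by linear_combination h2
          rcases mul_eq_zero.1 h4 with h5 | h5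
          · exact absurd h5 two_ne_zero
          · exact h5
        obtain ⟨φ⟩ : Nonempty (F →+* ℂ) := inferInstance
        have h5 := hD.1 φ
        rw [hy, h3] at h5
        simp at h5
      obtain ⟨p, hp, hpv⟩ := exists_prime_mem v
      obtain ⟨ℓ, hℓ, ζ, hne', hζ⟩ := h2' p hp
      have hℓv : (ℓ : 𝓞 F) ∉ v.asIdeal :=
        not_mem_of_coprime ((Nat.coprime_primes hp hℓ.out).2 (Ne.symm hne')) hpv
      exact h1' F c hc hc1 n m v (a v) hv' p hp hpv ℓ (K ℓ) ζ hℓv hζ (R ℓ) (ht v hv' ℓ hℓv)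
  have hN0 : ((CP18.cond F n a : ℕ) : ℂ) ≠ 0 := by
    obtain ⟨δ, hδ⟩ : ∃ δ : ℂ, IsDelta F δ := by
      obtain ⟨D, hD⟩ := hcm
      obtain ⟨y, hy⟩ := IsAlgClosed.exists_pow_nat_eq ((Algebra.norm ℚ D : ℚ) : ℂ) (n := 2)
        (by norm_num)
      exact ⟨_, Or.inl ⟨D, hD, y, hy, rfl⟩⟩
    obtain ⟨r, hr, hr'⟩ := sqrt_cond c hc hcm hcy n a hsq δ hδ
    intro h
    rw [h, Complex.zero_cpow (by norm_num)] at hr'
    obtain ⟨b, hb, hb'⟩ := factor_sq hδ (Module.finrank ℚ F / 2)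
    have h1 : (Complex.I ^ (Module.finrank ℚ F / 2) * δ) ≠ 0 := by
      intro h2
      rw [h2] at hb'
      apply hb
      have h3 : ((b : ℚ) : ℂ) = 0 := by rw [← hb']; ring
      exact_mod_cast h3
    exact mul_ne_zero (by exact_mod_cast hr) (pow_ne_zero n h1) hr'.symm
  have hε0 : (ε : ℚ) ≠ 0 := by
    rcases hε with h | h <;> rw [h] <;> norm_num
  refine ⟨⟨?_, ?_, ?_⟩, ?_⟩
  · intro ι p hp
    have := (M.hodge ι).1 p hp
    omega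
  · intro ι p hp
    have := (M.hodge ι).1 p hp
    omega
  · intro δ hδ
    obtain ⟨r, hr, hr'⟩ := sqrt_cond c hc hcm hcy n a hsq δ hδ
    refine ⟨((ε * r : ℚ) : E), by exact_mod_cast mul_ne_zero hε0 hr, ?_⟩
    intro ι
    have e1 : (((2 * m : ℤ) : ℂ) + 1 - (m : ℂ)) = (m : ℂ) + 1 := by push_cast; ring
    have h1 := hfe ι (m : ℂ) (hΛ ι).2.2.1 (by rw [e1]; exact (hΛ ι).2.2.2)
    have e2 : ((((2 * m : ℤ) : ℂ) + 1) / 2 - (m : ℂ)) = 1 / 2 := by push_cast; ring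
    rw [e1, e2, hr'] at h1
    rw [h1, mul_div_assoc, div_self (h0 ι), mul_one]
    push_cast
    rw [map_mul, map_intCast, map_ratCast]
    ring
  · intro j hj hR δ hδ
    obtain ⟨e, he, he'⟩ := hR δ hδ
    obtain ⟨b, hb, hb'⟩ := factor_sq hδ (Module.finrank ℚ F / 2)
    set z : ℂ := Complex.I ^ (Module.finrank ℚ F / 2) * δ with hz
    have hz0 : z ≠ 0 := by
      intro h2
      rw [h2] at hb'
      apply hb
      have h3 : ((b : ℚ) : ℂ) = 0 := by rw [← hb']; ring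
      exact_mod_cast h3
    have hbE : ((b : ℚ) : E) ≠ 0 := by exact_mod_cast hb
    have hNE : ((CP18.cond F n a : ℕ) : E) ≠ 0 := by
      intro h
      have h4 : CP18.cond F n a = 0 := by exact_mod_cast h
      exact hN0 (by rw [h4]; simp)
    refine ⟨(CP18.cond F n a : E) / (e * ((b : ℚ) : E) ^ n),
      div_ne_zero hNE (mul_ne_zero he (pow_ne_zero _ hbE)), ?_⟩
    intro ι
    obtain ⟨a1, a2, a3, a4⟩ := hj ι
    have h5 := he' ι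
    have hιe : ι e ≠ 0 := by
      rw [Ne, map_eq_zero]
      exact he
    have hne : Λ ι j / Λ ι (j + 1) ≠ 0 := by
      rw [h5]
      exact mul_ne_zero hιe (pow_ne_zero n hz0)
    have hj0 : Λ ι j ≠ 0 := fun h => hne (by rw [h, zero_div])
    have hj1 : Λ ι (j + 1) ≠ 0 := fun h => hne (by rw [h, div_zero])
    have e1 : (((2 * m : ℤ) : ℂ) + 1 - (j : ℂ)) = ((2 * m - j : ℤ) : ℂ) + 1 := by
      push_cast; ring
    have e2 : (((2 * m : ℤ) : ℂ) + 1 - ((j : ℂ) + 1)) = ((2 * m - j : ℤ) : ℂ) := by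
      push_cast; ring
    have f1 := hfe ι (j : ℂ) a1 (by rw [e1]; exact a4)
    have f2 := hfe ι ((j : ℂ) + 1) a2 (by rw [e2]; exact a3)
    rw [e1] at f1
    rw [e2] at f2
    have e3 : ((CP18.cond F n a : ℕ) : ℂ) ^ ((((2 * m : ℤ) : ℂ) + 1) / 2 - (j : ℂ)) =
        (CP18.cond F n a : ℕ) *
          ((CP18.cond F n a : ℕ) : ℂ) ^ ((((2 * m : ℤ) : ℂ) + 1) / 2 - ((j : ℂ) + 1)) := by
      have e4 : ((((2 * m : ℤ) : ℂ) + 1) / 2 - (j : ℂ)) =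
          1 + ((((2 * m : ℤ) : ℂ) + 1) / 2 - ((j : ℂ) + 1)) := by ring
      rw [e4, Complex.cpow_add _ _ hN0, Complex.cpow_one]
    rw [e3] at f1
    set P : ℂ := ((CP18.cond F n a : ℕ) : ℂ) ^ ((((2 * m : ℤ) : ℂ) + 1) / 2 - ((j : ℂ) + 1)) with hP
    have hεC : (ε : ℂ) ≠ 0 := by
      rcases hε with h | h <;> rw [h] <;> norm_num
    have hP0 : P ≠ 0 := by
      intro h
      rw [h, mul_zero, zero_mul] at f2
      exact hj1 f2
    have g1 : Λ ι (((2 * m - j : ℤ) : ℂ) + 1) ≠ 0 := by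
      intro h
      rw [h, mul_zero] at f1
      exact hj0 f1
    have h6 : Λ ι ((2 * m - j : ℤ) : ℂ) / Λ ι (((2 * m - j : ℤ) : ℂ) + 1) =
        (CP18.cond F n a : ℕ) / (Λ ι j / Λ ι (j + 1)) := by
      rw [f1, f2] at *
      field_simp
    rw [h6, h5]
    have hb2 : z ^ (2 * n) = ((b : ℚ) : ℂ) ^ n := by rw [pow_mul, hb']
    have hbC : ((b : ℚ) : ℂ) ≠ 0 := by exact_mod_cast hb
    rw [map_div₀, map_mul, map_pow, map_natCast, map_ratCast]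
    rw [div_eq_iff (mul_ne_zero hιe (pow_ne_zero n hz0))]
    have h7 : (CP18.cond F n a : ℂ) / (ι e * ((b : ℚ) : ℂ) ^ n) * z ^ n * (ι e * z ^ n) =
        (CP18.cond F n a : ℂ) * (z ^ (2 * n) / ((b : ℚ) : ℂ) ^ n) * (ι e / ι e) := by
      field_simp
      ring
    rw [h7, hb2, div_self (pow_ne_zero n hbC), div_self hιe]
    ring

end PQ
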