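import Pool.Agent.Helper94.PQ.AsmT
import Pool.Agent.Helper94.PQ.MainC
import Pool.Agent.Helper17.PQ.GALL
import Pool.Agent.Helper62.PQ.CIC
import Pool.Agent.Helper62.PQ.RS1
import Pool.Agent.Helper66.PQ.CIO
import Pool.Agent.Helper79.PQ.CIK
import Pool.Agent.Helper89.PQ.CDL
import Pool.Agent.Helper98.REC.OVP

/-!
# Conjugate self-dual motives: the assembly
-/

set_option autoImplicit false

open NumberField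
open scoped Classical

namespace PQ.Asm

theorem hCDL : ST_CDL := PQ89.st_CDL hFIN hGRP hSUR hREP hVRES REC.st_OVP
theorem hCIO : ST_CIO := PQ.st_CIO
theorem hCIK : ST_CIK := PQ.cik79 hGRP
theorem hCIC : ST_CIC := PQCIC.cic hCDL hFIN hGRP hSUR hWSUR hTAME
theorem hCPAR : ST_CPAR := PQ.cpar hODDVT hDYADVT hCIO hCIK hCIC

/-- the theorem -/
theorem finalC (F E : Type) [Field F] [NumberField F] [Field E] [NumberField E]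
    (c : F ≃ₐ[ℚ] F) (hc : ∀ x, c (c x) = x)
    (hcm : ∃ D : maximalRealSubfield F, BKA.IsCMElt F D)
    (hcy : ∀ (D : maximalRealSubfield F) (y : F), BKA.IsCMElt F D → y ^ 2 = D → c y = -y)
    (n : ℕ) (m : ℤ) (M : BKA.MotT F E n (2 * m)) (a : BKA.Pl F →₀ ℕ)
    (ha : ∀ v v' : BKA.Pl F,
      (∀ x y : 𝓞 F, (y : F) = c (x : F) → (x ∈ v.asIdeal ↔ y ∈ v'.asIdeal)) → a v = a v')
    (K : ∀ (ℓ : ℕ) [Fact ℓ.Prime], Type) [∀ (ℓ : ℕ) [Fact ℓ.Prime], Field (K ℓ)]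
    [∀ (ℓ : ℕ) [Fact ℓ.Prime], Algebra ℚ_[ℓ] (K ℓ)]
    [∀ (ℓ : ℕ) [Fact ℓ.Prime], TopologicalSpace (K ℓ)]
    [∀ (ℓ : ℕ) [Fact ℓ.Prime], IsTopologicalRing (K ℓ)]
    [∀ (ℓ : ℕ) [Fact ℓ.Prime], T2Space (K ℓ)]
    (R : ∀ (ℓ : ℕ) [Fact ℓ.Prime], ConjOrthK F c n m ℓ (K ℓ))
    (ht : ∀ v : BKA.Pl F, (∀ x y : 𝓞 F, (y : F) = c (x : F) → y - x ∈ v.asIdeal) →
      ∀ (ℓ : ℕ) [Fact ℓ.Prime], (ℓ : 𝓞 F) ∉ v.asIdeal → IsCond (R ℓ).ρ v (a v))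
    (Λ : (E →+* ℂ) → ℂ → ℂ) (hΛ : ∀ ι, BKA.Contn (M.L ι) (Λ ι) m)
    (h0 : ∀ ι, Λ ι (m + 1) ≠ 0) (ε : ℤ) (hε : ε = 1 ∨ ε = -1)
    (hfe : ∀ ι, CP18.FunEq (Λ ι) (2 * m) (CP18.cond F n a) ε) :
    (M.Crit m ∧ M.Crit (m + 1) ∧ BKA.Ratio F E n m Λ) ∧
      ∀ j : ℤ, (∀ ι, AnalyticAt ℂ (Λ ι) j ∧ AnalyticAt ℂ (Λ ι) (j + 1) ∧
        AnalyticAt ℂ (Λ ι) ((2 * m - j : ℤ) : ℂ) ∧ AnalyticAt ℂ (Λ ι) ((2 * m - j : ℤ) + 1)) →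
      BKA.Ratio F E n j Λ → BKA.Ratio F E n (2 * m - j) Λ :=
  centralC hCPAR hZP F E c hc hcm hcy n m M a ha K R ht Λ hΛ h0 ε hε hfe

open BKA CP18 in
/-- the conductor is a square, for every involution `c ≠ 1` -/
theorem squareC (F : Type) [Field F] [NumberField F]
    (c : F ≃ₐ[ℚ] F) (hc : ∀ x, c (c x) = x) (hc1 : ∃ x, c x ≠ x) (n : ℕ) (m : ℤ) (a : Pl F →₀ ℕ)
    (ha : ∀ v v' : Pl F,
      (∀ x y : 𝓞 F, (y : F) = c (x : F) → (x ∈ v.asIdeal ↔ y ∈ v'.asIdeal)) → a v = a v')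
    (K : ∀ (ℓ : ℕ) [Fact ℓ.Prime], Type) [∀ (ℓ : ℕ) [Fact ℓ.Prime], Field (K ℓ)]
    [∀ (ℓ : ℕ) [Fact ℓ.Prime], Algebra ℚ_[ℓ] (K ℓ)]
    [∀ (ℓ : ℕ) [Fact ℓ.Prime], TopologicalSpace (K ℓ)]
    [∀ (ℓ : ℕ) [Fact ℓ.Prime], IsTopologicalRing (K ℓ)]
    [∀ (ℓ : ℕ) [Fact ℓ.Prime], T2Space (K ℓ)]
    (R : ∀ (ℓ : ℕ) [Fact ℓ.Prime], ConjOrthK F c n m ℓ (K ℓ))
    (ht : ∀ v : Pl F, (∀ x y : 𝓞 F, (y : F) = c (x : F) → y - x ∈ v.asIdeal) →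
      ∀ (ℓ : ℕ) [Fact ℓ.Prime], (ℓ : 𝓞 F) ∉ v.asIdeal → IsCond (R ℓ).ρ v (a v)) :
    IsSquare (a.prod fun v j => q v ^ j) := by
  refine conductor_square hc a ?_ ?_
  · intro v
    refine ha (cPl c v) v ?_
    intro x y hxy
    have h1 : y = cO c x := RingOfIntegers.ext hxy
    rw [h1]
    exact mem_cPl
  · intro v _ hi
    have hv' : ∀ x y : 𝓞 F, (y : F) = c (x : F) → y - x ∈ v.asIdeal := by
      intro x y hxy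
      have h1 : y = cO c x := RingOfIntegers.ext hxy
      rw [h1]
      exact hi x
    obtain ⟨p, hp, hpv⟩ := exists_prime_mem v
    obtain ⟨ℓ, hℓ, ζ, hne', hζ⟩ := hZP p hp
    have hℓv : (ℓ : 𝓞 F) ∉ v.asIdeal :=
      not_mem_of_coprime ((Nat.coprime_primes hp hℓ.out).2 (Ne.symm hne')) hpv
    exact hCPAR F c hc hc1 n m v (a v) hv' p hp hpv ℓ (K ℓ) ζ hℓv hζ (R ℓ) (ht v hv' ℓ hℓv)

open BKA CP18 in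
/-- the theorem for all involutions -/
theorem finalD (F E : Type) [Field F] [NumberField F] [Field E] [NumberField E]
    (c : F ≃ₐ[ℚ] F) (hc : ∀ x, c (c x) = x) (hc1 : ∃ x, c x ≠ x) (n : ℕ)
    (hodd : Odd n → (∃ D : maximalRealSubfield F, IsCMElt F D) ∧
      ∀ (D : maximalRealSubfield F) (y : F), IsCMElt F D → y ^ 2 = D → c y = -y)
    (m : ℤ) (M : MotT F E n (2 * m)) (a : Pl F →₀ ℕ)
    (ha : ∀ v v' : Pl F,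
      (∀ x y : 𝓞 F, (y : F) = c (x : F) → (x ∈ v.asIdeal ↔ y ∈ v'.asIdeal)) → a v = a v')
    (K : ∀ (ℓ : ℕ) [Fact ℓ.Prime], Type) [∀ (ℓ : ℕ) [Fact ℓ.Prime], Field (K ℓ)]
    [∀ (ℓ : ℕ) [Fact ℓ.Prime], Algebra ℚ_[ℓ] (K ℓ)]
    [∀ (ℓ : ℕ) [Fact ℓ.Prime], TopologicalSpace (K ℓ)]
    [∀ (ℓ : ℕ) [Fact ℓ.Prime], IsTopologicalRing (K ℓ)]
    [∀ (ℓ : ℕ) [Fact ℓ.Prime], T2Space (K ℓ)]
    (R : ∀ (ℓ : ℕ) [Fact ℓ.Prime], ConjOrthK F c n m ℓ (K ℓ))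
    (ht : ∀ v : Pl F, (∀ x y : 𝓞 F, (y : F) = c (x : F) → y - x ∈ v.asIdeal) →
      ∀ (ℓ : ℕ) [Fact ℓ.Prime], (ℓ : 𝓞 F) ∉ v.asIdeal → IsCond (R ℓ).ρ v (a v))
    (Λ : (E →+* ℂ) → ℂ → ℂ) (hΛ : ∀ ι, Contn (M.L ι) (Λ ι) m)
    (h0 : ∀ ι, Λ ι (m + 1) ≠ 0) (ε : ℤ) (hε : ε = 1 ∨ ε = -1)
    (hfe : ∀ ι, FunEq (Λ ι) (2 * m) (cond F n a) ε) :
    (M.Crit m ∧ M.Crit (m + 1) ∧ Ratio F E n m Λ) ∧
      (∀ j : ℤ, (∀ ι, AnalyticAt ℂ (Λ ι) j ∧ AnalyticAt ℂ (Λ ι) (j + 1) ∧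
        AnalyticAt ℂ (Λ ι) ((2 * m - j : ℤ) : ℂ) ∧ AnalyticAt ℂ (Λ ι) ((2 * m - j : ℤ) + 1)) →
      Ratio F E n j Λ → Ratio F E n (2 * m - j) Λ) ∧
      ((∃ ι, M.h ι (m - 1) ≠ 0) → ∀ j : ℤ, M.Crit j → M.Crit (j + 1) → j = m) := by
  rcases Nat.even_or_odd n with he | ho
  · obtain ⟨r, hr⟩ := he
    rw [← two_mul] at hr
    subst hr
    exact ratio_of_square F E r m M a (squareC F c hc hc1 _ m a ha K R ht) Λ hΛ h0 ε hε hfe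
  · obtain ⟨hcm, hcy⟩ := hodd ho
    obtain ⟨h1, h2⟩ := finalC F E c hc hcm hcy n m M a ha K R ht Λ hΛ h0 ε hε hfe
    refine ⟨h1, h2, ?_⟩
    rintro ⟨ι, hι⟩ j hj hj'
    have h3 : m - 1 ∈ (M.h ι).support := Finsupp.mem_support_iff.2 hι
    have h4 := hj ι _ h3
    have h5 := hj' ι _ h3
    omega

end PQ.Asm
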