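import Pool.Agent.Helper94.PQ.StmtsT
import Pool.Agent.Helper55.PQ.GTHN

/-!
# Row DIH: parity for dihedral groups
-/

set_option autoImplicit false

open scoped Classical

namespace PQ.A94

open Pool.Agent.Helper13.Swan

section two

variable {P : Type} [Group P] {r : P}

theorem mem_two (hrr : r * r = 1) (g : P) : g ∈ Subgroup.zpowers r ↔ g = 1 ∨ g = r := by
  constructor
  · intro h
    obtain ⟨i, rfl⟩ := Subgroup.mem_zpowers_iff.1 h
    rcases Int.even_or_odd' i with ⟨c, rfl | rfl⟩
    · left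
      rw [zpow_mul, zpow_two, hrr, one_zpow]
    · right
      rw [zpow_add, zpow_mul, zpow_two, hrr, one_zpow, one_mul, zpow_one]
  · rintro (rfl | rfl)
    · exact one_mem _
    · exact Subgroup.mem_zpowers _

variable [Fintype P]

theorem filter_two (hrr : r * r = 1) :
    (Finset.univ.filter fun g : P => g ∈ Subgroup.zpowers r) = {1, r} := by
  ext g
  simp only [Finset.mem_filter, Finset.mem_univ, true_and, Finset.mem_insert,
    Finset.mem_singleton]
  exact mem_two hrr g

theorem sum_two [Fintype (Subgroup.zpowers r)] (hrr : r * r = 1) (hr : r ≠ 1) (f : P → ℤ) :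
    ∑ h : Subgroup.zpowers r, f h = f 1 + f r := by
  rw [← PQ55.sum_ite_mem, ← Finset.sum_filter, filter_two hrr,
    Finset.sum_pair (Ne.symm hr)]

omit [Fintype P] in
theorem card_two (hrr : r * r = 1) (hr : r ≠ 1) : Nat.card (Subgroup.zpowers r) = 2 := by
  rw [Nat.card_zpowers]
  exact orderOf_eq_prime (by rw [pow_two]; exact hrr) hr

theorem nm_two {Ω : Type} [Field Ω] [MulSemiringAction P Ω] (hrr : r * r = 1) (hr : r ≠ 1)
    (x : Ω) : nm (Subgroup.zpowers r) x = x * r • x := by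
  rw [nm_def]
  have h1 : ∏ τ : Subgroup.zpowers r, (τ : P) • x =
      ∏ g ∈ Finset.univ.filter (fun g : P => g ∈ Subgroup.zpowers r), g • x := by
    symm
    exact Finset.prod_subtype _ (by intro x; simp) _
  rw [h1, filter_two hrr, Finset.prod_pair (Ne.symm hr), one_smul]

end two

theorem dih (hD : ST_DSP) (hM : ST_MISS) (hH : ST_HAC) : ST_DIH := by
  intro Ω P _ _ _ _ _ w π hB a s k ha hs hcov hss hsa
  obtain ⟨d1, d2, d3, d4, d5, d6⟩ := hD Ω P w π hB
  -- the group
  have hsinv : s⁻¹ = s := inv_eq_of_mul_eq_one_left hss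
  have hsa' : s * a = a⁻¹ * s := by
    rw [← hsa]; group
  have hsz : ∀ i : ℤ, s * a ^ i = a ^ (-i) * s := by
    intro i
    have h1 : (s * a * s⁻¹) ^ i = s * a ^ i * s⁻¹ := by
      have := conj_zpow (a := s) (b := a) (i := i)
      exact this
    rw [hsa] at h1
    rw [zpow_neg, ← inv_zpow, h1]
    group
  obtain ⟨r, hr⟩ : ∃ r, r = a * s := ⟨_, rfl⟩
  have hrr : r * r = 1 := by
    rw [hr, mul_assoc, ← mul_assoc s a s, hsa', mul_assoc, hss, mul_one, mul_inv_cancel]
  have hrA : r ∉ Subgroup.zpowers a := by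
    intro h
    apply hs
    have := (Subgroup.zpowers a).mul_mem ((Subgroup.zpowers a).inv_mem
      (Subgroup.mem_zpowers a)) h
    rwa [hr, inv_mul_cancel_left] at this
  have hr1 : r ≠ 1 := fun h => hrA (h ▸ one_mem _)
  obtain ⟨m, hm⟩ : ∃ m : ℕ, m = 2 ^ k := ⟨_, rfl⟩
  have hm0 : 0 < m := by rw [hm]; positivity
  have hN : orderOf a = 4 * m := by rw [ha, hm]; ring
  have haN : a ^ (4 * m) = 1 := by rw [← hN]; exact pow_orderOf_eq_one a
  obtain ⟨M, hM1⟩ : ∃ M : ℕ, 2 * m = M + 1 := ⟨2 * m - 1, by omega⟩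
  -- `ν`
  obtain ⟨ν, hν⟩ : ∃ ν : Ω, ν = nm (Subgroup.zpowers r) π := ⟨_, rfl⟩
  have hν' : ν = π * r • π := by rw [hν, nm_two hrr hr1]
  have hsν : s • ν = a⁻¹ • ν := by
    rw [hν', smul_mul', smul_mul', ← mul_smul, ← mul_smul, hr]
    have h1 : s * (a * s) = a⁻¹ := by
      rw [← mul_assoc, hsa', mul_assoc, hss, mul_one]
    rw [h1, inv_mul_cancel_left, mul_comm]
  have hwν : w ν = ex 2 := by
    rw [hν', map_mul, hB.inv, hB.unif, ← ex_add]
    norm_num
  -- `f i = a ^ i ν`
  have hrf : ∀ i : ℤ, r • (a ^ i) • ν = a ^ (-i) • ν := by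
    intro i
    have h1 : a ^ (-i) = a * a ^ (-i) * a⁻¹ := by
      rw [← zpow_one_add, ← zpow_neg_one, ← zpow_add]
      congr 1
      ring
    rw [← mul_smul, hr, mul_assoc, hsz, ← mul_assoc, mul_smul, hsν, ← mul_smul, ← h1]
  obtain ⟨X, hX⟩ : ∃ X : Ω, X = ∏ i ∈ Finset.range (2 * m), (a ^ ((i : ℤ) - m)) • ν := ⟨_, rfl⟩
  obtain ⟨C, hC⟩ : ∃ C : Ω, C = ∏ i ∈ Finset.range M, (a ^ ((i : ℤ) + 1 - m)) • ν := ⟨_, rfl⟩
  have haX : a • X = ∏ i ∈ Finset.range (2 * m), (a ^ ((i : ℤ) + 1 - m)) • ν := by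
    rw [hX, Finset.smul_prod']
    apply Finset.prod_congr rfl
    intro i _
    rw [← mul_smul, ← zpow_one_add]
    congr 2
    ring
  have hX1 : X = C * (a ^ (-(m : ℤ))) • ν := by
    rw [hX, hM1, Finset.prod_range_succ', hC]
    congr 1
    simp
  have haX1 : a • X = C * (a ^ (m : ℤ)) • ν := by
    rw [haX, hM1, Finset.prod_range_succ, hC]
    congr 3
    have : (M : ℤ) + 1 = 2 * m := by exact_mod_cast hM1.symm
    rw [this]
    ring
  have hrX : r • X = a • X := by
    rw [haX, hX, Finset.smul_prod', ← Finset.prod_range_reflect]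
    apply Finset.prod_congr rfl
    intro i hi
    rw [hrf]
    have hi' := Finset.mem_range.1 hi
    have h2 : ((2 * m - 1 - i : ℕ) : ℤ) = 2 * m - 1 - i := by omega
    rw [h2]
    congr 2
    ring
  obtain ⟨y, hy⟩ : ∃ y : Ω, y = a • X - X := ⟨_, rfl⟩
  have hry : r • y = -y := by
    rw [hy, ← hrX, smul_sub, ← mul_smul, hrr, one_smul, neg_sub]
  -- the valuation of `y`
  obtain ⟨z, hz⟩ : ∃ z : P, z = a ^ (2 * m) := ⟨_, rfl⟩
  have hz1 : z ≠ 1 := by
    rw [hz]
    intro h
    have := orderOf_dvd_of_pow_eq_one h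
    rw [hN] at this
    have := Nat.le_of_dvd (by omega) this
    omega
  have hzA : z ∈ Subgroup.zpowers a := by
    rw [hz]; exact Subgroup.npow_mem_zpowers a _
  have hzH : z ∉ Subgroup.zpowers r := by
    rw [mem_two hrr]
    rintro (h | h)
    · exact hz1 h
    · exact hrA (h ▸ hzA)
  have hzr : dI w π (z * r) = dI w π r := by
    have h1 : z * r = a ^ (m : ℤ) * r * (a ^ (m : ℤ))⁻¹ := by
      rw [hz, hr, ← zpow_neg, mul_assoc, mul_assoc a s, hsz, neg_neg, ← zpow_natCast]
      rw [← mul_assoc, ← mul_assoc, ← mul_assoc, ← zpow_add_one, ← zpow_add_one, ← zpow_add]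
      congr 2
      push_cast
      ring
    rw [h1, d4]
  have hwz : w (z • ν - ν) = ex (dI w π z + dI w π r) := by
    have h1 := d6 (Subgroup.zpowers r) z hzH
    rw [sum_two hrr hr1 (fun h => dI w π (z * h)), mul_one, hzr, ← hν] at h1
    exact h1
  have hwf : w ((a ^ (m : ℤ)) • ν - (a ^ (-(m : ℤ))) • ν) = ex (dI w π z + dI w π r) := by
    rw [← hwz, ← hB.inv (a ^ (-(m : ℤ))) (z • ν - ν), smul_sub, ← mul_smul]
    congr 3
    rw [hz, ← zpow_natCast, ← zpow_add]
    congr 1
    push_cast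
    ring
  have hwC : w C = ex (2 * M) := by
    rw [hC, map_prod]
    simp only [hB.inv, hwν]
    rw [Finset.prod_const, Finset.card_range, ex_pow]
    congr 1
    ring
  have hwy : w y = ex (2 * M + (dI w π z + dI w π r)) := by
    rw [hy, haX1]
    conv_lhs => rw [hX1]
    rw [← mul_sub, map_mul, hwf, hwC, ← ex_add]
  -- `η`
  obtain ⟨νA, hνA⟩ : ∃ νA : Ω, νA = nm (Subgroup.zpowers a) π := ⟨_, rfl⟩
  have haν : ∀ g ∈ Subgroup.zpowers a, g • νA = νA := by
    intro g hg
    rw [hνA]
    exact nm_fixed _ _ g hg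
  obtain ⟨η, hη⟩ : ∃ η : Ω, η = s • νA - νA := ⟨_, rfl⟩
  have hAη : ∀ g ∈ Subgroup.zpowers a, g • η = η := by
    intro g hg
    obtain ⟨i, rfl⟩ := Subgroup.mem_zpowers_iff.1 hg
    rw [hη, smul_sub, haν _ hg, ← mul_smul]
    have h1 : a ^ i * s = s * a ^ (-i) := by
      rw [hsz, neg_neg]
    rw [h1, mul_smul, haν _ (Subgroup.zpow_mem_zpowers a _)]
  have hsη : s • η = -η := by
    rw [hη, smul_sub, ← mul_smul, hss, one_smul, neg_sub]
  have hrη : r • η = -η := by
    rw [hr, mul_smul, hsη, smul_neg, hAη _ (Subgroup.mem_zpowers a)]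
  obtain ⟨T, hT⟩ : ∃ T : ℤ, T = ∑ h : Subgroup.zpowers a, dI w π (s * h) := ⟨_, rfl⟩
  have hwη : w η = ex T := by
    rw [hη, hνA, d6 (Subgroup.zpowers a) s hs, hT]
  have hη0 : η ≠ 0 := by
    intro h
    rw [h, map_zero] at hwη
    exact ex_ne_zero _ hwη.symm
  have hcA : Nat.card (Subgroup.zpowers a) = 4 * m := by rw [Nat.card_zpowers, hN]
  obtain ⟨t, ht⟩ : ∃ t : ℤ, T = 4 * m * t := by
    obtain ⟨t, ht⟩ := hB.val_fixed (Subgroup.zpowers a) (y := η) hAη hη0
    rw [hwη, ex_inj, hcA] at ht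
    exact ⟨t, by rw [ht]; push_cast; ring⟩
  -- `x`
  have hy0 : y ≠ 0 := by
    intro h
    rw [h, map_zero] at hwy
    exact ex_ne_zero _ hwy.symm
  have hx0 : y * η ≠ 0 := mul_ne_zero hy0 hη0
  have hFx : Fx (Subgroup.zpowers r) (y * η) := by
    intro τ hτ
    rcases (mem_two hrr τ).1 hτ with rfl | rfl
    · rw [one_smul]
    · rw [smul_mul', hry, hrη, neg_mul_neg]
  -- the trace
  have htr : ∑ c : P ⧸ Subgroup.zpowers r, (Quotient.out c : P) • (y * η) = 0 := by
    have hbij : Function.Bijective (fun i : Fin (4 * m) =>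
        ((a ^ (i : ℕ) : P) : P ⧸ Subgroup.zpowers r)) := by
      constructor
      · intro i j hij
        have h1 : (a ^ (i : ℕ))⁻¹ * a ^ (j : ℕ) ∈ Subgroup.zpowers r :=
          QuotientGroup.eq.1 hij
        have h2 : (a ^ (i : ℕ))⁻¹ * a ^ (j : ℕ) ∈ Subgroup.zpowers a :=
          (Subgroup.zpowers a).mul_mem ((Subgroup.zpowers a).inv_mem
            (Subgroup.npow_mem_zpowers a _)) (Subgroup.npow_mem_zpowers a _)
        rcases (mem_two hrr _).1 h1 with h3 | h3
        · have h4 : a ^ (i : ℕ) = a ^ (j : ℕ) := inv_mul_eq_one.1 h3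
          have h5 := pow_injOn_Iio_orderOf (x := a) (by
            rw [hN]; exact i.2) (by rw [hN]; exact j.2) h4
          exact Fin.ext h5
        · rw [h3] at h2
          exact absurd h2 hrA
      · intro c
        induction c using QuotientGroup.induction_on with
        | H g =>
          have key : ∃ i : ℤ, (a ^ i)⁻¹ * g ∈ Subgroup.zpowers r := by
            rcases hcov g with h | h
            · obtain ⟨i, rfl⟩ := Subgroup.mem_zpowers_iff.1 h
              exact ⟨i, by rw [inv_mul_cancel]; exact one_mem _⟩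
            · obtain ⟨i, hi⟩ := Subgroup.mem_zpowers_iff.1 h
              refine ⟨-i - 1, ?_⟩
              have h1 : g = s * a ^ i := by rw [hi, mul_inv_cancel_left]
              rw [mem_two hrr]
              right
              rw [h1, hsz, hr, ← mul_assoc, ← zpow_neg, ← zpow_add]
              congr 1
              rw [show (-(-i - 1) + -i : ℤ) = 1 by ring, zpow_one]
          obtain ⟨i, hi⟩ := key
          have hpos : (0 : ℤ) < 4 * m := by positivity
          refine ⟨⟨(i % (4 * m)).toNat, ?_⟩, ?_⟩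
          · have := Int.emod_lt_of_pos i hpos
            have := Int.emod_nonneg i hpos.ne'
            omega
          · rw [QuotientGroup.eq]
            have h2 : a ^ (i % (4 * m)).toNat = a ^ i := by
              rw [← zpow_natCast, Int.toNat_of_nonneg (Int.emod_nonneg i hpos.ne')]
              have h3 : i = i % (4 * m) + (4 * m) * (i / (4 * m)) :=
                (Int.emod_add_mul_ediv i (4 * m)).symm
              conv_rhs => rw [h3]
              rw [zpow_add, zpow_mul]
              have h4 : a ^ ((4 : ℤ) * m) = 1 := by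
                have := haN
                rw [← zpow_natCast] at this
                push_cast at this
                exact this
              rw [h4, one_zpow, mul_one]
            simp only
            rw [h2]
            exact hi
    have h1 : ∑ c : P ⧸ Subgroup.zpowers r, (Quotient.out c : P) • (y * η) =
        ∑ i : Fin (4 * m), (a ^ (i : ℕ)) • (y * η) := by
      symm
      apply Fintype.sum_bijective _ hbij
      intro i
      have h2 : ((Quotient.out ((a ^ (i : ℕ) : P) : P ⧸ Subgroup.zpowers r) : P) :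
          P ⧸ Subgroup.zpowers r) = ((a ^ (i : ℕ) : P) : P ⧸ Subgroup.zpowers r) :=
        QuotientGroup.out_eq' _
      have h3 := QuotientGroup.eq.1 h2.symm
      have h4 := hFx _ h3
      rw [← h4, ← mul_smul, mul_inv_cancel_left, h4]
    rw [h1, Fin.sum_univ_eq_sum_range (fun i => (a ^ i) • (y * η)) (4 * m)]
    have h5 : ∀ i ∈ Finset.range (4 * m), (a ^ i) • (y * η) =
        ((a ^ (i + 1)) • X) * η - ((a ^ i) • X) * η := by
      intro i _
      rw [smul_mul', hAη _ (Subgroup.npow_mem_zpowers a _), hy, smul_sub, ← mul_smul, ← pow_succ,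
        sub_mul]
    rw [Finset.sum_congr rfl h5, Finset.sum_range_sub (fun i => ((a ^ i) • X) * η), haN, pow_zero,
      sub_self]
  -- the class
  obtain ⟨q, hq⟩ := PQ55.hac_sub hH w π hB a (k + 1) ha
  have hz2 : a ^ 2 ^ (k + 1) = z := by
    rw [hz, hm]
    congr 1
    ring
  rw [hz2] at hq ⊢
  have hsum := PQ55.sum_split (Subgroup.zpowers a) s hs hcov (fun g => dI w π g)
  obtain ⟨SA, hSA⟩ : ∃ SA : ℤ, SA = ∑ g : P, if g ∈ Subgroup.zpowers a then dI w π g else 0 :=
    ⟨_, rfl⟩
  rw [← hSA] at hq hsum ⊢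
  have hsum2 : (∑ g : P, if g ∈ Subgroup.zpowers r then 0 else dI w π g) = SA + T - dI w π r := by
    have h1 : (∑ g : P, if g ∈ Subgroup.zpowers r then 0 else dI w π g) =
        ∑ g : P, dI w π g - ∑ g : P, if g ∈ Subgroup.zpowers r then dI w π g else 0 := by
      rw [← Finset.sum_sub_distrib]
      apply Finset.sum_congr rfl
      intro g _
      split_ifs <;> ring
    rw [h1, PQ55.sum_ite_mem, sum_two hrr hr1 (fun h => dI w π h), d1, zero_add, hsum, hT]
  have hcP : Nat.card P = 8 * m := by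
    have h1 := PQ55.sum_split (Subgroup.zpowers a) s hs hcov (fun _ => 1)
    rw [PQ55.sum_ite_mem] at h1
    simp only [Finset.sum_const, mul_one, Finset.card_univ, nsmul_eq_mul] at h1
    rw [← Nat.card_eq_fintype_card, ← Nat.card_eq_fintype_card, hcA] at h1
    omega
  by_contra hno
  have hq2 : Odd q := by
    by_contra he
    rw [Int.not_odd_iff_even] at he
    obtain ⟨q', rfl⟩ := he
    apply hno
    refine ⟨q', ?_⟩
    rw [hq]
    ring
  obtain ⟨q', rfl⟩ := hq2
  refine hM Ω P w π hB (Subgroup.zpowers r) (y * η) hFx hx0 ⟨q' + 1 + t, ?_⟩ htr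
  rw [map_mul, hwy, hwη, ← ex_add, ex_inj, hsum2, card_two hrr hr1, hcP]
  have e1 : (2 : ℤ) ^ (k + 1 + 1) = 4 * m := by
    rw [hm]; push_cast; ring
  rw [e1] at hq
  have e2 : (M : ℤ) + 1 = 2 * m := by exact_mod_cast hM1.symm
  push_cast
  linear_combination 2 * e2 + hq + 2 * ht
end PQ.A94
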