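import Pool.Agent.Helper94.PQ.Stmts

/-!
# Elementary facts on the inertia group and the wild inertia group
-/

set_option autoImplicit false

open NumberField
open scoped Classical

namespace PQ.A94

open BKA

section

variable {F : Type} [Field F] [NumberField F]

theorem zb_map (σ : Gal F) (x : Zb F) :
    ∃ z : Zb F, (z : AlgebraicClosure F) = σ (x : AlgebraicClosure F) :=
  ⟨⟨σ (x : AlgebraicClosure F), x.2.map ((σ : AlgebraicClosure F →+* AlgebraicClosure F).toIntAlgHom)⟩,
    rfl⟩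

theorem oL_map {L : IntermediateField F (AlgebraicClosure F)} [Normal F L] (σ : Gal F) (x : 𝓞 L) :
    ∃ z : 𝓞 L, ((z : L) : AlgebraicClosure F) = σ ((x : L) : AlgebraicClosure F) := by
  let g : L ≃ₐ[F] L := AlgEquiv.restrictNormal σ L
  refine ⟨⟨g (x : L), x.isIntegral_coe.map (g : L →+* L).toIntAlgHom⟩, ?_⟩
  exact AlgEquiv.restrictNormal_commutes σ L (x : L)

theorem inc_coe {L : IntermediateField F (AlgebraicClosure F)} (x : 𝓞 L) :
    ((inc L x : Zb F) : AlgebraicClosure F) = ((x : L) : AlgebraicClosure F) := rfl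

theorem mem_under {L : IntermediateField F (AlgebraicClosure F)} {𝔓 : Ideal (Zb F)} {x : 𝓞 L} :
    x ∈ under L 𝔓 ↔ inc L x ∈ 𝔓 := Iff.rfl

/-- the ring endomorphism of the integers of `L` induced by `τ` -/
noncomputable def oEnd (L : IntermediateField F (AlgebraicClosure F)) [Normal F L] (τ : Gal F) :
    𝓞 L →+* 𝓞 L where
  toFun x := (oL_map τ x).choose
  map_one' := by
    apply RingOfIntegers.ext
    apply Subtype.ext
    rw [(oL_map τ (1 : 𝓞 L)).choose_spec]
    simp
  map_zero' := by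
    apply RingOfIntegers.ext
    apply Subtype.ext
    rw [(oL_map τ (0 : 𝓞 L)).choose_spec]
    simp
  map_add' x y := by
    apply RingOfIntegers.ext
    apply Subtype.ext
    rw [(oL_map τ (x + y)).choose_spec]
    simp [(oL_map τ x).choose_spec, (oL_map τ y).choose_spec]
  map_mul' x y := by
    apply RingOfIntegers.ext
    apply Subtype.ext
    rw [(oL_map τ (x * y)).choose_spec]
    simp [(oL_map τ x).choose_spec, (oL_map τ y).choose_spec]

theorem oEnd_coe (L : IntermediateField F (AlgebraicClosure F)) [Normal F L] (τ : Gal F)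
    (x : 𝓞 L) : ((oEnd L τ x : L) : AlgebraicClosure F) = τ ((x : L) : AlgebraicClosure F) :=
  (oL_map τ x).choose_spec

theorem ext_oL {L : IntermediateField F (AlgebraicClosure F)} {x y : 𝓞 L}
    (h : ((x : L) : AlgebraicClosure F) = ((y : L) : AlgebraicClosure F)) : x = y :=
  RingOfIntegers.ext (Subtype.ext h)

theorem oEnd_mem (L : IntermediateField F (AlgebraicClosure F)) [Normal F L] {τ : Gal F}
    {𝔓 : Ideal (Zb F)} (hτ : Congr 𝔓 1 τ) {x : 𝓞 L} (hx : x ∈ under L 𝔓) :
    oEnd L τ x ∈ under L 𝔓 := by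
  have h1 := hτ (inc L x) (inc L (oEnd L τ x)) (by rw [inc_coe, inc_coe, oEnd_coe])
  rw [pow_one] at h1
  have h2 : inc L (oEnd L τ x) = (inc L (oEnd L τ x) - inc L x) + inc L x := by ring
  rw [mem_under, h2]
  exact 𝔓.add_mem h1 hx

theorem oEnd_mem_pow (L : IntermediateField F (AlgebraicClosure F)) [Normal F L] {τ : Gal F}
    {𝔓 : Ideal (Zb F)} (hτ : Congr 𝔓 1 τ) (i : ℕ) {x : 𝓞 L} (hx : x ∈ under L 𝔓 ^ i) :
    oEnd L τ x ∈ under L 𝔓 ^ i := by
  have h1 : (under L 𝔓).map (oEnd L τ) ≤ under L 𝔓 := by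
    rw [Ideal.map_le_iff_le_comap]
    intro y hy
    exact oEnd_mem L hτ hy
  have h2 := Ideal.mem_map_of_mem (oEnd L τ) hx
  rw [Ideal.map_pow] at h2
  exact Ideal.pow_right_mono h1 i h2

theorem congr_mul {𝔓 : Ideal (Zb F)} {σ τ : Gal F} (hσ : Congr 𝔓 1 σ) (hτ : Congr 𝔓 1 τ) :
    Congr 𝔓 1 (σ * τ) := by
  intro x y hxy
  obtain ⟨z, hz⟩ := zb_map τ x
  have h1 := hτ x z hz
  have h2 := hσ z y (by rw [hxy, hz]; rfl)
  rw [pow_one] at h1 h2 ⊢
  have h3 : y - x = (y - z) + (z - x) := by ring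
  rw [h3]
  exact 𝔓.add_mem h2 h1

theorem congr_inv {𝔓 : Ideal (Zb F)} {σ : Gal F} (hσ : Congr 𝔓 1 σ) : Congr 𝔓 1 σ⁻¹ := by
  intro x y hxy
  have h1 : (x : AlgebraicClosure F) = σ (y : AlgebraicClosure F) := by
    rw [hxy]
    exact (AlgEquiv.apply_symm_apply σ (x : AlgebraicClosure F)).symm
  have h2 := hσ y x h1
  rw [pow_one] at h2 ⊢
  have h3 : y - x = -(x - y) := by ring
  rw [h3]
  exact (Ideal.neg_mem_iff _).2 h2

theorem wild_congr {𝔓 : Ideal (Zb F)} {σ : Gal F} (hσ : Wild 𝔓 σ) : Congr 𝔓 1 σ := by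
  intro x y hxy
  rw [pow_one]
  let K : IntermediateField F (AlgebraicClosure F) :=
    IntermediateField.adjoin F {(x : AlgebraicClosure F)}
  have hK : FiniteDimensional F K :=
    IntermediateField.adjoin.finiteDimensional (Algebra.IsIntegral.isIntegral _)
  let L : IntermediateField F (AlgebraicClosure F) :=
    IntermediateField.normalClosure F K (AlgebraicClosure F)
  have hKL : K ≤ L := IntermediateField.le_normalClosure K
  have hLn : Normal F L := inferInstance
  have hLf : FiniteDimensional F L := inferInstance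
  have hx : (x : AlgebraicClosure F) ∈ L :=
    hKL (IntermediateField.subset_adjoin F _ (Set.mem_singleton _))
  let x' : 𝓞 L := ⟨⟨(x : AlgebraicClosure F), hx⟩, by
    have h1 := x.2
    have h2 : IsIntegral ℤ (x : AlgebraicClosure F) := h1
    exact (isIntegral_algHom_iff ((algebraMap L (AlgebraicClosure F)).toIntAlgHom)
      (algebraMap L (AlgebraicClosure F)).injective).1 h2⟩
  obtain ⟨y', hy'⟩ := oL_map (L := L) σ x'
  have h1 := hσ L hLf hLn x' y' hy'
  have h2 : y' - x' ∈ under L 𝔓 := Ideal.pow_le_self (by norm_num) h1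
  rw [mem_under] at h2
  have h3 : inc L (y' - x') = y - x := by
    apply Subtype.ext
    rw [inc_coe]
    push_cast
    rw [hy', hxy]
    rfl
  rwa [h3] at h2

theorem wild_mul {𝔓 : Ideal (Zb F)} {σ τ : Gal F} (hσ : Wild 𝔓 σ) (hτ : Wild 𝔓 τ) :
    Wild 𝔓 (σ * τ) := by
  intro L hL hn x y hxy
  obtain ⟨z, hz⟩ := oL_map (L := L) τ x
  have h1 := hτ L hL hn x z hz
  have h2 := hσ L hL hn z y (by rw [hxy, hz]; rfl)
  have h3 : y - x = (y - z) + (z - x) := by ring
  rw [h3]
  exact Ideal.add_mem _ h2 h1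

theorem wild_inv {𝔓 : Ideal (Zb F)} {σ : Gal F} (hσ : Wild 𝔓 σ) : Wild 𝔓 σ⁻¹ := by
  intro L hL hn x y hxy
  have h1 : ((x : L) : AlgebraicClosure F) = σ ((y : L) : AlgebraicClosure F) := by
    rw [hxy]
    exact (AlgEquiv.apply_symm_apply σ ((x : L) : AlgebraicClosure F)).symm
  have h2 := hσ L hL hn y x h1
  have h3 : y - x = -(x - y) := by ring
  rw [h3]
  exact (Ideal.neg_mem_iff _).2 h2

theorem wild_conj {𝔓 : Ideal (Zb F)} {σ τ : Gal F} (hσ : Wild 𝔓 σ) (hτ : Congr 𝔓 1 τ) :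
    Wild 𝔓 (τ * σ * τ⁻¹) := by
  intro L hL hn x y hxy
  obtain ⟨x', hx'⟩ := oL_map (L := L) τ⁻¹ x
  obtain ⟨y', hy'⟩ := oL_map (L := L) σ x'
  have h1 := hσ L hL hn x' y' hy'
  have h2 := oEnd_mem_pow L hτ _ h1
  have h3 : oEnd L τ (y' - x') = y - x := by
    rw [map_sub]
    congr 1
    · apply ext_oL
      rw [oEnd_coe, hy', hx', hxy]
      rfl
    · apply ext_oL
      rw [oEnd_coe, hx']
      exact AlgEquiv.apply_symm_apply τ ((x : L) : AlgebraicClosure F)
  rwa [h3] at h2

end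

/-- GRP -/
theorem grp : ST_GRP := by
  intro F _ _ v 𝔓 hv
  refine ⟨fun σ τ => congr_mul, fun σ => congr_inv, fun σ => wild_congr, fun σ τ => wild_mul,
    fun σ => wild_inv, fun σ τ => wild_conj, ?_, ?_⟩
  · intro L hL σ hσ
    refine ⟨AlgEquiv.restrictNormal σ L, ?_, fun x => ?_⟩
    · intro x y hxy
      rw [mem_under]
      have h1 := hσ (inc L x) (inc L y) (by
        rw [inc_coe, inc_coe, hxy]
        exact AlgEquiv.restrictNormal_commutes σ L (x : L))
      rw [pow_one] at h1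
      rwa [map_sub]
    · exact (AlgEquiv.restrictNormal_commutes σ L x).symm
  · intro L i σ g hg
    constructor
    · intro h x y hxy
      refine h x y ?_
      rw [hg, hxy]
    · intro h x y hxy
      refine h x y ?_
      apply Subtype.ext
      rw [hxy, hg]

end PQ.A94
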