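import Pool.Agent.Helper94.PQ.GRP

/-!
# The representation of the first ramification group
-/

set_option autoImplicit false

open NumberField
open scoped Classical

namespace PQ.A94

open BKA Pool.Agent.Helper13.Swan

theorem on_mul {F : Type} [Field F] {L : IntermediateField F (AlgebraicClosure F)}
    {σ τ : Gal F} {g h : L ≃ₐ[F] L} (hσ : On L σ g) (hτ : On L τ h) : On L (σ * τ) (g * h) := by
  intro x
  have h1 : (σ * τ) (x : AlgebraicClosure F) = σ (τ (x : AlgebraicClosure F)) := rfl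
  rw [h1, hτ, hσ]
  rfl

theorem on_unique {F : Type} [Field F] {L : IntermediateField F (AlgebraicClosure F)}
    {σ : Gal F} {g h : L ≃ₐ[F] L} (hg : On L σ g) (hh : On L σ h) : g = h := by
  apply AlgEquiv.ext
  intro x
  apply Subtype.ext
  rw [← hg, ← hh]

/-- REP -/
theorem rep (hW : ST_WSUR) : ST_REP := by
  intro F _ _ v 𝔓 hv L hL hn M k _ n ρ htriv
  have hO : ∀ (g : L ≃ₐ[F] L) (i : ℕ), (∀ x y : 𝓞 L, (y : L) = g (x : L) →
      y - x ∈ under L 𝔓 ^ (i + 1)) → g ∈ Inr L 𝔓 := by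
    intro g i h x y hxy
    exact Ideal.pow_le_self (Nat.succ_ne_zero i) (h x y hxy)
  refine ⟨?_, ?_⟩
  · intro i
    unfold ramCard
    refine Nat.card_congr
      { toFun := fun g => ⟨⟨g.1, hO g.1 i g.2⟩, (M.ram i ⟨g.1, hO g.1 i g.2⟩).1 g.2⟩
        invFun := fun g => ⟨((g : Inr L 𝔓) : L ≃ₐ[F] L), (M.ram i g.1).2 g.2⟩
        left_inv := fun g => rfl
        right_inv := fun g => rfl }
  · have hlift : ∀ g : Rk M.base 1, ∃ σ : Gal F, Wild 𝔓 σ ∧
        On L σ ((g : Inr L 𝔓) : L ≃ₐ[F] L) := by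
      intro g
      exact hW F v 𝔓 hv L hL hn _ ((M.ram 1 g.1).2 g.2)
    have huniq : ∀ (g : L ≃ₐ[F] L) (σ τ : Gal F), Wild 𝔓 σ → Wild 𝔓 τ → On L σ g → On L τ g →
        ρ σ = ρ τ := by
      intro g σ τ hσ hτ hσg hτg
      have h1 : ρ (σ⁻¹ * τ) = 1 := by
        refine htriv _ (wild_mul (wild_inv hσ) hτ) ?_
        intro x hx
        have h2 : (σ⁻¹ * τ) x = σ⁻¹ (τ x) := rfl
        have h3 : τ x = σ x := by
          rw [hτg ⟨x, hx⟩, ← hσg ⟨x, hx⟩]
        rw [h2, h3]
        exact AlgEquiv.symm_apply_apply σ x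
      rw [map_mul, map_inv] at h1
      exact (inv_mul_eq_one.1 h1)
    have hres : ∀ σ : Gal F, Wild 𝔓 σ → ∃ g : Rk M.base 1,
        On L σ ((g : Inr L 𝔓) : L ≃ₐ[F] L) := by
      intro σ hσ
      have hG := grp F v 𝔓 hv
      obtain ⟨g, hg, hg'⟩ := hG.2.2.2.2.2.2.1 L hn σ (wild_congr hσ)
      refine ⟨⟨⟨g, hg⟩, (M.ram 1 ⟨g, hg⟩).1 ?_⟩, hg'⟩
      exact (hG.2.2.2.2.2.2.2 L 1 σ g hg').1 (hσ L hL hn)
    choose lift hw hon using hlift
    let r : Rk M.base 1 →* Matrix.GeneralLinearGroup (Fin n) k :=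
      { toFun := fun g => ρ (lift g)
        map_one' := by
          rw [← map_one ρ]
          refine huniq 1 _ _ (hw 1) ?_ (hon 1) ?_
          · intro L' _ _ x y hxy
            have : y = x := ext_oL hxy
            rw [this, sub_self]
            exact Ideal.zero_mem _
          · intro x
            rfl
        map_mul' := by
          intro g h
          rw [← map_mul ρ]
          exact huniq _ _ _ (hw _) (wild_mul (hw _) (hw _)) (hon _) (on_mul (hon g) (hon h)) }
    refine ⟨r, ?_, fun g => ⟨lift g, hw g, hon g⟩, hres, ?_⟩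
    · intro σ g hσ hg
      exact huniq _ _ _ (hw g) hσ (hon g) hg
    · intro i x
      have hG := grp F v 𝔓 hv
      constructor
      · intro hx g hg
        have h1 : Wild 𝔓 (lift g) ∧ Ram L 𝔓 (i + 1) (lift g) :=
          ⟨hw g, (hG.2.2.2.2.2.2.2 L (i + 1) (lift g) _ (hon g)).2
            ((M.ram (i + 1) g.1).2 hg)⟩
        exact hx (lift g) h1
      · intro hx σ hσ
        obtain ⟨g, hg⟩ := hres σ hσ.1
        have h1 : (g : Inr L 𝔓) ∈ Rk M.base (i + 1) := by
          apply (M.ram (i + 1) g.1).1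
          exact (hG.2.2.2.2.2.2.2 L (i + 1) σ _ hg).1 hσ.2
        have h2 := hx g h1
        have h3 : r g = ρ σ := huniq _ _ _ (hw g) hσ.1 (hon g) hg
        unfold vec at h2 ⊢
        rw [← h3]
        exact h2

end PQ.A94
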