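import Pool.Agent.Helper94.PQ.MainT
import Pool.Agent.Helper94.PQ.GRP
import Pool.Agent.Helper94.PQ.REP
import Pool.Agent.Helper51.PQ.ODDVT
import Pool.Agent.Helper79.PQ.DYADVT
import Pool.Agent.Helper35.PQ.KUM
import Pool.Agent.Helper35.PQ.ZP
import Pool.Agent.Helper35.PQ.CYCI
import Pool.Agent.Helper18.PQ.SPLIT
import Pool.Agent.Helper62.PQ.TENS
import Pool.Agent.Helper20.PQ.NRM
import Pool.Agent.Helper20.PQ.ODDU
import Pool.Agent.Helper36.PQ.SQN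
import Pool.Agent.Helper29.PQ.HTET
import Pool.Agent.Helper29.PQ.DYADG
import Pool.Agent.Helper29.PQ.CARD
import Pool.Agent.Helper55.PQ.FIN
import Pool.Agent.Helper61.PQ.SUR
import Pool.Agent.Helper61.PQ.GADD
import Pool.Agent.Helper30.PQ.WSUR
import Pool.Agent.Helper10.PQ.TOP
import Pool.Agent.Helper39.PQ.DENSK
import Pool.Agent.Helper2.PQ.TAME
import Pool.Agent.Helper17.PQ.FILT
import Pool.Agent.Helper48.PQ.ODD
import Pool.Agent.Helper79.PQ.ODDA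
import Pool.Agent.Helper33.PQ.MISS
import Pool.Agent.Helper33.PQ.GQUO
import Pool.Agent.Helper87.PQ.QUO
import Pool.Agent.Helper87.PQ.GIND
import Pool.Agent.Helper89.PQ.DSP
import Pool.Agent.Helper66.PQ.NUM
import Pool.Agent.Helper28.PQ.HAC
import Pool.Agent.Helper1.PQ.VRES
import Pool.Agent.Helper20.PQ.HTG
import Pool.Agent.Helper55.PQ.GTHN
import Pool.Agent.Helper94.PQ.DIH
import Pool.Agent.Helper17.PQ.GALL
import Pool.Agent.Helper62.PQ.RS1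

/-!
# Motives of even weight with totally real coefficients: the assembly
-/

set_option autoImplicit false

open NumberField
open scoped Classical

namespace PQ.Asm

theorem hGRP : ST_GRP := PQ.A94.grp
theorem hFIN : ST_FIN := PQ55.st_FIN
theorem hSUR : ST_SUR := PQ.sur61
theorem hTAME : ST_TAME := Pool.Agent.Helper2.PQM.st_TAME
theorem hWSUR : ST_WSUR := PQ.wsur hSUR hGRP hFIN hTAME
theorem hTOP : ST_TOP := PQ.top_of hFIN hSUR hGRP hTAME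
theorem hDENSK : ST_DENSK := PQ.st_DENSK hWSUR hGRP
theorem hREP : ST_REP := PQ.A94.rep hWSUR
theorem hFILT : ST_FILT := PQ.filt hTAME
theorem hODD : ST_ODD := PQ.odd PQ.oddu PQ.cardR PQ.odda79
theorem hCYCI : ST_CYCI := PQ.H35.cyci
theorem hINERT : ST_INERT := PQ.H35.inert hFIN hSUR
theorem hKUM : ST_KUM := PQ.H35.kum hINERT hGRP hFIN
theorem hODDVT : ST_ODDVT :=
  PQ.st_ODDVT hFIN hSUR hGRP hTOP hDENSK hREP hFILT hODD hCYCI hKUM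
theorem hVRES : ST_VRES := PQ.vres
theorem hDSP : ST_DSP := PQ89.st_DSP
theorem hMISS : ST_MISS := PQ.miss
theorem hNUM : ST_NUM := PQ.st_NUM
theorem hHAC : ST_HAC := PQ28.st_HAC hMISS hNUM hDSP
theorem hQUO : ST_QUO := PQ87.quo hDSP
theorem hGADD : ST_GADD := PQ.gadd61
theorem hGQUO : ST_GQUO := PQ.gquo hQUO
theorem hGIND : ST_GIND := PQ87.gind hDSP
theorem hZP : ST_ZP := PQ.H35.zp
theorem hSPLIT : ST_SPLIT := PQ.split
theorem hTENS : ST_TENS := PQ.st_TENS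
theorem hNRM : ST_NRM := PQ.nrm
theorem hSQN : ST_SQN := PQ36.st_SQN
theorem hHTET : ST_HTET := PQ.htet

theorem hHTG : ST_HTG := PQ.htg
theorem hDIH : ST_DIH := PQ.A94.dih hDSP hMISS hHAC
theorem hGTHN : ST_GTHN := PQ55.st_GTHN hDSP hHAC hDIH
theorem hGALL : ST_GALL := PQ17.st_GALL hGADD hGQUO hGIND hGTHN PQ.st_RS1
theorem hDYADG : ST_DYADG := PQ.dyadG hGALL
theorem hDYADVT : ST_DYADVT :=
  PQ.dyadvT hFIN hGRP hTOP hDENSK hREP hTAME hVRES hDYADG hCYCI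

/-- the theorem -/
theorem final
    (F E : Type) [Field F] [NumberField F] [IsTotallyComplex F] [Field E] [NumberField E]
    [IsTotallyReal E] (n : ℕ) (m : ℤ) (M : BKA.MotT F E n (2 * m)) (δ : F) (hδ : δ ≠ 0) (b : E)
    (hb : ∀ ι : E →+* ℂ, 0 < (ι b).re)
    (R : ∀ (ℓ : ℕ) [Fact ℓ.Prime], RealT F E n m δ b ℓ) (a : BKA.Pl F →₀ ℕ)
    (ha : ∀ (ℓ : ℕ) [Fact ℓ.Prime] (v : BKA.Pl F), (ℓ : 𝓞 F) ∉ v.asIdeal →
      ∀ i, IsCond ((R ℓ).orth i).ρ v (a v))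
    (Λ : (E →+* ℂ) → ℂ → ℂ) (hΛ : ∀ ι, BKA.Contn (M.L ι) (Λ ι) m)
    (h0 : ∀ ι, Λ ι (m + 1) ≠ 0) (ε : ℤ) (hε : ε = 1 ∨ ε = -1)
    (hfe : ∀ ι, CP18.FunEq (Λ ι) (2 * m) (CP18.cond F n a) ε) :
    (M.Crit m ∧ M.Crit (m + 1) ∧ BKA.Ratio F E n m Λ) ∧
      (∀ j : ℤ, (∀ ι, AnalyticAt ℂ (Λ ι) j ∧ AnalyticAt ℂ (Λ ι) (j + 1) ∧
        AnalyticAt ℂ (Λ ι) ((2 * m - j : ℤ) : ℂ) ∧ AnalyticAt ℂ (Λ ι) ((2 * m - j : ℤ) + 1)) →
      BKA.Ratio F E n j Λ → BKA.Ratio F E n (2 * m - j) Λ) ∧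
      ((∃ ι, M.h ι (m - 1) ≠ 0) → ∀ j : ℤ, M.Crit j → M.Crit (j + 1) → j = m) :=
  mainT hODDVT hDYADVT hZP hHTG hSPLIT hTENS hNRM hSQN hHTET F E n m M δ hδ b hb R a ha
    Λ hΛ h0 ε hε hfe

end PQ.Asm
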