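import Pool.Agent.Helper18.CP.Main

/-!
# Motives of even weight with rational coefficients: definitions (MP_c63a07_nt)

`F` is a number field, `Zb F` the ring of all algebraic integers in the algebraic closure of `F` and
`𝔓` a prime of `Zb F`.
-/

set_option autoImplicit false

open NumberField
open scoped Classical

namespace PQ

open BKA

variable {F : Type} [Field F] [NumberField F]

/-! ## Ramification groups -/

/-- the inclusion of the integers of `L` -/
noncomputable def inc (L : IntermediateField F (AlgebraicClosure F)) : 𝓞 L →+* Zb F where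
  toFun x := ⟨((x : L) : AlgebraicClosure F),
    (x.isIntegral_coe).map ((algebraMap L (AlgebraicClosure F)).toIntAlgHom)⟩
  map_one' := rfl
  map_mul' _ _ := rfl
  map_zero' := rfl
  map_add' _ _ := rfl

/-- the prime of `L` under `𝔓` -/
noncomputable def under (L : IntermediateField F (AlgebraicClosure F)) (𝔓 : Ideal (Zb F)) :
    Ideal (𝓞 L) :=
  𝔓.comap (inc L)

/-- `σ` induces on `L` an element of the `i`-th ramification group (in the lower numbering) at the
prime under `𝔓` -/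
def Ram (L : IntermediateField F (AlgebraicClosure F)) (𝔓 : Ideal (Zb F)) (i : ℕ)
    (σ : Gal F) : Prop :=
  ∀ x y : 𝓞 L, ((y : L) : AlgebraicClosure F) = σ ((x : L) : AlgebraicClosure F) →
    y - x ∈ under L 𝔓 ^ (i + 1)

/-- the order of the `i`-th ramification group of `L / F` at the prime under `𝔓` -/
noncomputable def ramCard (L : IntermediateField F (AlgebraicClosure F)) (𝔓 : Ideal (Zb F))
    (i : ℕ) : ℕ :=
  Nat.card {g : L ≃ₐ[F] L // ∀ x y : 𝓞 L, (y : L) = g (x : L) → y - x ∈ under L 𝔓 ^ (i + 1)}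

/-- `σ` is in the wild inertia group at `𝔓` -/
def Wild (𝔓 : Ideal (Zb F)) (σ : Gal F) : Prop :=
  ∀ L : IntermediateField F (AlgebraicClosure F), FiniteDimensional F L → Normal F L →
    Ram L 𝔓 1 σ

/-! ## Conductors -/

section

variable {k : Type} [Field k] {n : ℕ}

/-- the vectors fixed by all `σ` in the set `S` -/
noncomputable def fixd (ρ : Gal F →* Matrix.GeneralLinearGroup (Fin n) k) (S : Set (Gal F)) :
    Submodule k (Fin n → k) where
  carrier := {x | ∀ σ ∈ S, vec ρ σ x = x}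
  zero_mem' := fun σ _ => Matrix.mulVec_zero _
  add_mem' := by
    intro x y hx hy σ hσ
    have h : vec ρ σ (x + y) = vec ρ σ x + vec ρ σ y := Matrix.mulVec_add _ _ _
    rw [h, hx σ hσ, hy σ hσ]
  smul_mem' := by
    intro a x hx σ hσ
    have h : vec ρ σ (a • x) = a • vec ρ σ x := Matrix.mulVec_smul _ _ _
    rw [h, hx σ hσ]

/-- the codimension of the vectors fixed by `S` -/
noncomputable def codim (ρ : Gal F →* Matrix.GeneralLinearGroup (Fin n) k) (S : Set (Gal F)) : ℕ :=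
  n - Module.finrank k (fixd ρ S)

/-- `a` is the exponent of the conductor of `ρ` at the place `v`: for a prime `𝔓` over `v` and a
finite Galois extension `L` of `F` such that the elements of the wild inertia group at `𝔓` that fix
`L` act trivially, `g₀ a` is `g₀` times the codimension of the invariants of the inertia group plus
the sum over `i ≥ 1` of `gᵢ` times the codimension of the invariants of the `i`-th ramification
group, where `gᵢ` is the order of the `i`-th ramification group of `L / F`. -/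
def IsCond (ρ : Gal F →* Matrix.GeneralLinearGroup (Fin n) k) (v : Pl F) (a : ℕ) : Prop :=
  ∃ (𝔓 : Ideal (Zb F)) (L : IntermediateField F (AlgebraicClosure F)),
    Over v 𝔓 ∧ FiniteDimensional F L ∧ Normal F L ∧
    (∀ σ : Gal F, Wild 𝔓 σ → (∀ x ∈ L, σ x = x) → ρ σ = 1) ∧
    ramCard L 𝔓 0 * a = ramCard L 𝔓 0 * codim ρ {σ | Congr 𝔓 1 σ} +
      ∑ᶠ i : ℕ, ramCard L 𝔓 (i + 1) * codim ρ {σ | Wild 𝔓 σ ∧ Ram L 𝔓 (i + 1) σ}

end

/-! ## The realisations -/

/-- the cyclotomic character, with values in the `ℓ`-adic numbers -/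
noncomputable def cyc (F : Type) [Field F] (ℓ : ℕ) [Fact ℓ.Prime] : Gal F →* ℚ_[ℓ]ˣ :=
  ((Units.map (algebraMap ℤ_[ℓ] ℚ_[ℓ] : ℤ_[ℓ] →* ℚ_[ℓ])).comp
    (cyclotomicCharacter (AlgebraicClosure F) ℓ)).comp
    { toFun := fun σ => σ.toRingEquiv, map_one' := rfl, map_mul' := fun _ _ => rfl }

/-- Let `ρ` be the Galois representation on `V = ℚ_ℓ ^ n`, `B` the bilinear form, `𝔓` a prime over
`ℓ`. For a field `C` that contains `ℚ_ℓ` and the algebraic closure of `F`, with an action of the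
decomposition group at `𝔓` (think of the completion `C = ℂ_ℓ` at `𝔓`), there is a subspace `W` of
`V ⊗ C`, equal to its orthogonal space and stable under the semilinear action of the decomposition
group. If `V` is a Hodge–Tate representation whose weights are all different from one half of the
weight of `B`, then one can take for `W` the sum of the parts of the larger weights. -/
def HodgeTate {ℓ : ℕ} [Fact ℓ.Prime] {n : ℕ}
    (ρ : Gal F →* Matrix.GeneralLinearGroup (Fin n) ℚ_[ℓ]) (B : Matrix (Fin n) (Fin n) ℚ_[ℓ])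
    (𝔓 : Ideal (Zb F)) : Prop :=
  ∃ (C : Type) (_ : Field C) (i : ℚ_[ℓ] →+* C) (j : AlgebraicClosure F →+* C)
    (act : Gal F → C →+* C) (W : Submodule C (Fin n → C)),
    (∀ x, x ∈ W ↔ ∀ y ∈ W, x ⬝ᵥ (B.map i).mulVec y = 0) ∧
    ∀ σ : Gal F, (∀ x y : Zb F, (y : AlgebraicClosure F) = σ (x : AlgebraicClosure F) →
        (x ∈ 𝔓 ↔ y ∈ 𝔓)) →
      (∀ z, act σ (i z) = i z) ∧ (∀ z, act σ (j z) = j (σ z)) ∧
      ∀ x ∈ W, (((ρ σ : Matrix.GeneralLinearGroup (Fin n) ℚ_[ℓ]) :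
        Matrix (Fin n) (Fin n) ℚ_[ℓ]).map i).mulVec (fun t => act σ (x t)) ∈ W

/-- The `ℓ`-adic realisations of a polarised motive of rank `n` and weight `2 * m` over `F` with
rational coefficients, such that the Hodge number of type `(m, m)` is zero. -/
structure Realisations (F : Type) [Field F] [NumberField F] (n : ℕ) (m : ℤ) where
  ρ : ∀ (ℓ : ℕ) [Fact ℓ.Prime], Gal F →* Matrix.GeneralLinearGroup (Fin n) ℚ_[ℓ]
  cont : ∀ (ℓ : ℕ) [Fact ℓ.Prime], Continuous (ρ ℓ)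
  /-- the polarisation -/
  B : ∀ (ℓ : ℕ) [Fact ℓ.Prime], Matrix (Fin n) (Fin n) ℚ_[ℓ]
  symm : ∀ (ℓ : ℕ) [Fact ℓ.Prime], (B ℓ).transpose = B ℓ
  nondeg : ∀ (ℓ : ℕ) [Fact ℓ.Prime], (B ℓ).det ≠ 0
  inv : ∀ (ℓ : ℕ) [Fact ℓ.Prime] (σ : Gal F),
    ((ρ ℓ σ : Matrix.GeneralLinearGroup (Fin n) ℚ_[ℓ]) : Matrix (Fin n) (Fin n) ℚ_[ℓ]).transpose *
      B ℓ * ((ρ ℓ σ : Matrix.GeneralLinearGroup (Fin n) ℚ_[ℓ]) : Matrix (Fin n) (Fin n) ℚ_[ℓ]) =
      (((cyc F ℓ σ) ^ (-(2 * m)) : ℚ_[ℓ]ˣ) : ℚ_[ℓ]) • B ℓ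
  /-- the determinant is the product of a power of the cyclotomic character and of the quadratic
  character of `F (√δ) / F`, for all `ℓ` -/
  δ : F
  δ_ne : δ ≠ 0
  det : ∀ (ℓ : ℕ) [Fact ℓ.Prime] (σ : Gal F) (y : AlgebraicClosure F),
    y ^ 2 = algebraMap F (AlgebraicClosure F) δ →
    (σ y = y ∧ ((ρ ℓ σ : Matrix.GeneralLinearGroup (Fin n) ℚ_[ℓ]) :
      Matrix (Fin n) (Fin n) ℚ_[ℓ]).det = (((cyc F ℓ σ) ^ (-(n * m)) : ℚ_[ℓ]ˣ) : ℚ_[ℓ])) ∨
    (σ y = -y ∧ ((ρ ℓ σ : Matrix.GeneralLinearGroup (Fin n) ℚ_[ℓ]) :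
      Matrix (Fin n) (Fin n) ℚ_[ℓ]).det = -(((cyc F ℓ σ) ^ (-(n * m)) : ℚ_[ℓ]ˣ) : ℚ_[ℓ]))
  /-- the Hodge–Tate property at the places over `ℓ` -/
  hodgeTate : ∀ (ℓ : ℕ) [Fact ℓ.Prime] (v : Pl F), (ℓ : 𝓞 F) ∈ v.asIdeal →
    ∃ 𝔓 : Ideal (Zb F), Over v 𝔓 ∧ HodgeTate (ρ ℓ) (B ℓ) 𝔓

end PQ
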