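import Pool.Agent.Helper94.PQ.DefsT

/-!
# Conjugate orthogonal representations: definitions (MP_c63a07_nt)
-/

set_option autoImplicit false

open NumberField
open scoped Classical

namespace PQ

open BKA CP18

/-- the cyclotomic character of the automorphism group of the algebraic closure of `F`, with values
in the `ℓ`-adic numbers -/
noncomputable def cycA (F : Type) [Field F] (ℓ : ℕ) [Fact ℓ.Prime] :
    (AlgebraicClosure F ≃+* AlgebraicClosure F) →* ℚ_[ℓ]ˣ :=
  (Units.map (algebraMap ℤ_[ℓ] ℚ_[ℓ] : ℤ_[ℓ] →* ℚ_[ℓ])).comp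
    (cyclotomicCharacter (AlgebraicClosure F) ℓ)

/-- A conjugate orthogonal representation `ρ` on `V = K ^ n` of the absolute Galois group of `F`
over the extension `K` of `ℚ_ℓ`, for a motive of weight `2 * m`. For every `s` that induces `c` there
is a nondegenerate pairing with matrix `B` (think of `B x y = ⟨x, s⁻¹ y⟩`) with
`B (σ x) (s σ s⁻¹ y) = χ σ * B x y` and `B y x = (χ s)⁻¹ * B x (s ^ 2 y)`, where `χ` is the power
`-2 m` of the cyclotomic character. -/
structure ConjOrthK (F : Type) [Field F] [NumberField F] (c : F ≃ₐ[ℚ] F) (n : ℕ) (m : ℤ)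
    (ℓ : ℕ) [Fact ℓ.Prime] (K : Type) [Field K] [Algebra ℚ_[ℓ] K] [TopologicalSpace K] where
  ρ : Gal F →* Matrix.GeneralLinearGroup (Fin n) K
  cont : Continuous ρ
  pair : ∀ s : AlgebraicClosure F ≃+* AlgebraicClosure F, Lifts c s →
    ∃ B : Matrix (Fin n) (Fin n) K, B.det ≠ 0 ∧
      (∀ σ τ : Gal F, (∀ z, τ (s z) = s (σ z)) →
        ((ρ σ : Matrix.GeneralLinearGroup (Fin n) K) : Matrix (Fin n) (Fin n) K).transpose *
          B * ((ρ τ : Matrix.GeneralLinearGroup (Fin n) K) : Matrix (Fin n) (Fin n) K) =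
        (algebraMap ℚ_[ℓ] K (((cyc F ℓ σ) ^ (-(2 * m)) : ℚ_[ℓ]ˣ) : ℚ_[ℓ])) • B) ∧
      ∀ τ : Gal F, (∀ z, τ z = s (s z)) →
        B.transpose = (algebraMap ℚ_[ℓ] K (((cycA F ℓ s) ^ (2 * m) : ℚ_[ℓ]ˣ) : ℚ_[ℓ])) •
          (B * ((ρ τ : Matrix.GeneralLinearGroup (Fin n) K) : Matrix (Fin n) (Fin n) K))

end PQ
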