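import Pool.Agent.Helper94.PQ.Defs

/-!
# Motives of even weight with coefficients in a field of odd degree: definitions (MP_c63a07_nt)
-/

set_option autoImplicit false

open NumberField
open scoped Classical

namespace PQ

open BKA

variable {F : Type} [Field F] [NumberField F]

/-- Let `K` be a finite extension of `ℚ_ℓ`, `ρ` the Galois representation on `V = K ^ n`, `B` the
bilinear form, `𝔓` a prime over `ℓ`. Let `C` be an algebraically closed field that contains `ℚ_ℓ`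
and the algebraic closure of `F`, with an action of the decomposition group at `𝔓` (think of the
completion `C = ℂ_ℓ` at `𝔓`). Then `V ⊗ C` (tensor product over `ℚ_ℓ`) is the sum over the
embeddings `τ` of `K` in `C` of the spaces `V ⊗_τ C`. There are subspaces `W τ` of `V ⊗_τ C`, equal
to their orthogonal spaces, such that their sum is stable under the semilinear action of the
decomposition group. If `V` is a Hodge–Tate representation whose weights are all different from one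
half of the weight of `B`, then one can take for `W τ` the sum of the parts of the larger
weights. -/
def HodgeTateK {ℓ : ℕ} [Fact ℓ.Prime] {K : Type} [Field K] [Algebra ℚ_[ℓ] K] {n : ℕ}
    (ρ : Gal F →* Matrix.GeneralLinearGroup (Fin n) K) (B : Matrix (Fin n) (Fin n) K)
    (𝔓 : Ideal (Zb F)) : Prop :=
  ∃ (C : Type) (_ : Field C) (_ : IsAlgClosed C) (_ : Algebra ℚ_[ℓ] C)
    (j : AlgebraicClosure F →+* C) (act : Gal F → C →+* C)
    (W : (K →ₐ[ℚ_[ℓ]] C) → Submodule C (Fin n → C)),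
    (∀ τ x, x ∈ W τ ↔ ∀ y ∈ W τ, x ⬝ᵥ (B.map τ).mulVec y = 0) ∧
    ∀ σ : Gal F, (∀ x y : Zb F, (y : AlgebraicClosure F) = σ (x : AlgebraicClosure F) →
        (x ∈ 𝔓 ↔ y ∈ 𝔓)) →
      (∀ z : ℚ_[ℓ], act σ (algebraMap ℚ_[ℓ] C z) = algebraMap ℚ_[ℓ] C z) ∧
      (∀ z, act σ (j z) = j (σ z)) ∧
      ∀ τ τ' : K →ₐ[ℚ_[ℓ]] C, (∀ z, act σ (τ z) = τ' z) → ∀ x ∈ W τ,
        (((ρ σ : Matrix.GeneralLinearGroup (Fin n) K) :
          Matrix (Fin n) (Fin n) K).map τ').mulVec (fun t => act σ (x t)) ∈ W τ'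

/-- The realisation over the finite extension `K` of `ℚ_ℓ` of a polarised motive of rank `n` and
weight `2 * m` over `F`, such that the Hodge numbers of type `(m, m)` are zero. -/
structure Realis (F : Type) [Field F] [NumberField F] (n : ℕ) (m : ℤ) (δ : F) (ℓ : ℕ)
    [Fact ℓ.Prime] (K : Type) [Field K] [Algebra ℚ_[ℓ] K] [TopologicalSpace K] where
  ρ : Gal F →* Matrix.GeneralLinearGroup (Fin n) K
  cont : Continuous ρ
  /-- the polarisation -/
  B : Matrix (Fin n) (Fin n) K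
  symm : B.transpose = B
  nondeg : B.det ≠ 0
  inv : ∀ σ : Gal F,
    ((ρ σ : Matrix.GeneralLinearGroup (Fin n) K) : Matrix (Fin n) (Fin n) K).transpose *
      B * ((ρ σ : Matrix.GeneralLinearGroup (Fin n) K) : Matrix (Fin n) (Fin n) K) =
      (algebraMap ℚ_[ℓ] K (((cyc F ℓ σ) ^ (-(2 * m)) : ℚ_[ℓ]ˣ) : ℚ_[ℓ])) • B
  /-- the determinant is the product of a power of the cyclotomic character and of the quadratic
  character of `F (√δ) / F` -/
  det : ∀ (σ : Gal F) (y : AlgebraicClosure F),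
    y ^ 2 = algebraMap F (AlgebraicClosure F) δ →
    (σ y = y ∧ ((ρ σ : Matrix.GeneralLinearGroup (Fin n) K) : Matrix (Fin n) (Fin n) K).det =
      algebraMap ℚ_[ℓ] K (((cyc F ℓ σ) ^ (-(n * m)) : ℚ_[ℓ]ˣ) : ℚ_[ℓ])) ∨
    (σ y = -y ∧ ((ρ σ : Matrix.GeneralLinearGroup (Fin n) K) : Matrix (Fin n) (Fin n) K).det =
      -algebraMap ℚ_[ℓ] K (((cyc F ℓ σ) ^ (-(n * m)) : ℚ_[ℓ]ˣ) : ℚ_[ℓ]))
  /-- the Hodge–Tate property at the places over `ℓ` -/
  hodgeTate : ∀ v : Pl F, (ℓ : 𝓞 F) ∈ v.asIdeal →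
    ∃ 𝔓 : Ideal (Zb F), Over v 𝔓 ∧ HodgeTateK (ℓ := ℓ) ρ B 𝔓

/-- For every prime `ℓ` a finite extension `K ℓ` of `ℚ_ℓ` of odd degree and the realisation of a
motive over it. For a motive with coefficients in a number field `E` of odd degree, `K ℓ` is the
completion of `E` at a place over `ℓ` whose local degree is odd. -/
structure RealisationsK (F : Type) [Field F] [NumberField F] (n : ℕ) (m : ℤ) where
  K : ∀ (ℓ : ℕ) [Fact ℓ.Prime], Type
  [field : ∀ (ℓ : ℕ) [Fact ℓ.Prime], Field (K ℓ)]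
  [alg : ∀ (ℓ : ℕ) [Fact ℓ.Prime], Algebra ℚ_[ℓ] (K ℓ)]
  [fin : ∀ (ℓ : ℕ) [Fact ℓ.Prime], FiniteDimensional ℚ_[ℓ] (K ℓ)]
  [top : ∀ (ℓ : ℕ) [Fact ℓ.Prime], TopologicalSpace (K ℓ)]
  [ring : ∀ (ℓ : ℕ) [Fact ℓ.Prime], IsTopologicalRing (K ℓ)]
  [t2 : ∀ (ℓ : ℕ) [Fact ℓ.Prime], T2Space (K ℓ)]
  [smul : ∀ (ℓ : ℕ) [Fact ℓ.Prime], ContinuousSMul ℚ_[ℓ] (K ℓ)]
  odd : ∀ (ℓ : ℕ) [Fact ℓ.Prime], Odd (Module.finrank ℚ_[ℓ] (K ℓ))
  δ : F
  δ_ne : δ ≠ 0
  real : ∀ (ℓ : ℕ) [Fact ℓ.Prime], Realis F n m δ ℓ (K ℓ)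

attribute [instance] RealisationsK.field RealisationsK.alg RealisationsK.fin RealisationsK.top
  RealisationsK.ring RealisationsK.t2 RealisationsK.smul

end PQ
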