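import Pool.Agent.Helper94.PQ.Defs

/-!
# Motives of even weight with totally real coefficients: definitions (MP_c63a07_nt)
-/

set_option autoImplicit false

open NumberField
open scoped Classical

namespace PQ

open BKA

variable {F : Type} [Field F] [NumberField F]

/-- An orthogonal representation of the Galois group of `F` over the extension `K` of `ℚ_ℓ`: the
similitude factor is the power `-2 m` of the cyclotomic character, and the determinant is the product
of the power `-n m` of the cyclotomic character and of the quadratic character of `F (√δ) / F`. -/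
structure Orth (F : Type) [Field F] [NumberField F] (n : ℕ) (m : ℤ) (δ : F) (ℓ : ℕ)
    [Fact ℓ.Prime] (K : Type) [Field K] [Algebra ℚ_[ℓ] K] [TopologicalSpace K] where
  ρ : Gal F →* Matrix.GeneralLinearGroup (Fin n) K
  cont : Continuous ρ
  B : Matrix (Fin n) (Fin n) K
  symm : B.transpose = B
  nondeg : B.det ≠ 0
  inv : ∀ σ : Gal F,
    ((ρ σ : Matrix.GeneralLinearGroup (Fin n) K) : Matrix (Fin n) (Fin n) K).transpose *
      B * ((ρ σ : Matrix.GeneralLinearGroup (Fin n) K) : Matrix (Fin n) (Fin n) K) =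
      (algebraMap ℚ_[ℓ] K (((cyc F ℓ σ) ^ (-(2 * m)) : ℚ_[ℓ]ˣ) : ℚ_[ℓ])) • B
  det : ∀ (σ : Gal F) (y : AlgebraicClosure F),
    y ^ 2 = algebraMap F (AlgebraicClosure F) δ →
    (σ y = y ∧ ((ρ σ : Matrix.GeneralLinearGroup (Fin n) K) : Matrix (Fin n) (Fin n) K).det =
      algebraMap ℚ_[ℓ] K (((cyc F ℓ σ) ^ (-(n * m)) : ℚ_[ℓ]ˣ) : ℚ_[ℓ])) ∨
    (σ y = -y ∧ ((ρ σ : Matrix.GeneralLinearGroup (Fin n) K) : Matrix (Fin n) (Fin n) K).det =
      -algebraMap ℚ_[ℓ] K (((cyc F ℓ σ) ^ (-(n * m)) : ℚ_[ℓ]ˣ) : ℚ_[ℓ]))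

/-- Let `K i` be finite extensions of `ℚ_ℓ` (the completions of `E` at the places over `ℓ`), `ρ i`
the Galois representations on `V i = (K i) ^ n`, `B i` the bilinear forms, `𝔓` a prime over `ℓ`.
Let `C` be an algebraically closed field that contains `ℚ_ℓ` and the algebraic closure of `F`, with
an action of the decomposition group at `𝔓` (think of the completion `C = ℂ_ℓ` at `𝔓`). Then
`V i ⊗ C` (tensor product over `ℚ_ℓ`) is the sum over the embeddings `τ` of `K i` in `C` of the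
spaces `V i ⊗_τ C`. There are subspaces `W i τ` of `V i ⊗_τ C`, equal to their orthogonal spaces,
such that their sum is stable under the semilinear action of the decomposition group. If `V i` is a
Hodge–Tate representation whose weights are all different from one half of the weight of `B i`, then
one can take for `W i τ` the sum of the parts of the larger weights. -/
def HodgeTateT {ℓ : ℕ} [Fact ℓ.Prime] {I : Type} (K : I → Type) [∀ i, Field (K i)]
    [∀ i, Algebra ℚ_[ℓ] (K i)] {n : ℕ}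
    (ρ : ∀ i, Gal F →* Matrix.GeneralLinearGroup (Fin n) (K i))
    (B : ∀ i, Matrix (Fin n) (Fin n) (K i)) (𝔓 : Ideal (Zb F)) : Prop :=
  ∃ (C : Type) (_ : Field C) (_ : IsAlgClosed C) (_ : Algebra ℚ_[ℓ] C)
    (j : AlgebraicClosure F →+* C) (act : Gal F → C →+* C)
    (W : ∀ i, (K i →ₐ[ℚ_[ℓ]] C) → Submodule C (Fin n → C)),
    (∀ i τ x, x ∈ W i τ ↔ ∀ y ∈ W i τ, x ⬝ᵥ ((B i).map τ).mulVec y = 0) ∧
    ∀ σ : Gal F, (∀ x y : Zb F, (y : AlgebraicClosure F) = σ (x : AlgebraicClosure F) →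
        (x ∈ 𝔓 ↔ y ∈ 𝔓)) →
      (∀ z : ℚ_[ℓ], act σ (algebraMap ℚ_[ℓ] C z) = algebraMap ℚ_[ℓ] C z) ∧
      (∀ z, act σ (j z) = j (σ z)) ∧
      ∀ (i : I) (τ τ' : K i →ₐ[ℚ_[ℓ]] C), (∀ z, act σ (τ z) = τ' z) → ∀ x ∈ W i τ,
        (((ρ i σ : Matrix.GeneralLinearGroup (Fin n) (K i)) :
          Matrix (Fin n) (Fin n) (K i)).map τ').mulVec (fun t => act σ (x t)) ∈ W i τ'

/-- The `ℓ`-adic realisation of a polarised motive of rank `n` and weight `2 * m` over `F` with
coefficients in the totally real field `E`, such that the Hodge numbers of type `(m, m)` are zero.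
The number `b` is the discriminant of the Betti realisation (a vector space over `E` with a
quadratic form), up to squares. -/
structure RealT (F E : Type) [Field F] [NumberField F] [Field E] [NumberField E] (n : ℕ) (m : ℤ)
    (δ : F) (b : E) (ℓ : ℕ) [Fact ℓ.Prime] where
  /-- the places of `E` over `ℓ` -/
  I : Type
  /-- the completions of `E` -/
  K : I → Type
  [field : ∀ i, Field (K i)]
  [alg : ∀ i, Algebra ℚ_[ℓ] (K i)]
  [fin : ∀ i, FiniteDimensional ℚ_[ℓ] (K i)]
  [top : ∀ i, TopologicalSpace (K i)]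
  [ring : ∀ i, IsTopologicalRing (K i)]
  [t2 : ∀ i, T2Space (K i)]
  [smul : ∀ i, ContinuousSMul ℚ_[ℓ] (K i)]
  e : ∀ i, E →+* K i
  /-- every embedding of `E` in an algebraically closed field `C` that contains `ℚ_ℓ` extends
  uniquely to one of the completions -/
  ext : ∀ (C : Type) [Field C] [IsAlgClosed C] [Algebra ℚ_[ℓ] C] (f : E →+* C),
    ∃! p : (Σ i : I, (K i →ₐ[ℚ_[ℓ]] C)), ∀ x, p.2 (e p.1 x) = f x
  orth : ∀ i, Orth F n m δ ℓ (K i)
  disc : ∀ i, ∃ s : K i, s ≠ 0 ∧ (orth i).B.det = e i b * s ^ 2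
  hodgeTate : ∀ v : Pl F, (ℓ : 𝓞 F) ∈ v.asIdeal →
    ∃ 𝔓 : Ideal (Zb F), Over v 𝔓 ∧
      HodgeTateT (ℓ := ℓ) K (fun i => (orth i).ρ) (fun i => (orth i).B) 𝔓

attribute [instance] RealT.field RealT.alg RealT.fin RealT.top RealT.ring RealT.t2 RealT.smul

end PQ
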